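import Pool.Agent.N938.TD.YTr
import Pool.Agent.Y706.G16

set_option autoImplicit false
set_option linter.unusedSectionVars false

/-!
# Families of endomorphisms over a number field for abstract densities

Copies of `transferB`, `paramB`, `lowerB`, `lowerParam`, `main5` of `Pool.Agent.Y706` (starting files)
with the density of boxes replaced by an abstract density.
-/

namespace Pool.Agent.N938.TD.Y

open MvPolynomial Pool.Agent.H936R2 Pool.Agent.H927R2.RD H294UB
open Pool.Agent.W275.UB hiding D0 UD Gen bad1 typ2 bddO_of_type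
open Pool.Agent.W193.UB Pool.Agent.W554.UB NumberField Pool.Agent
open Pool.Agent.Y706 hiding evk_inj gen_ne_zero faithful isAlg_sum isAlg_trace rac_w algF mem_algF Wk_alg
  algF_trans indep_W indep_V rac rho_inj psiF psiF_algebraMap mem_range psiF_mem psiF_closed
  generic_ptsB transferB paramB lowerB lowerParam main5 D0_B

section main

variable {k : Type} [Field k] [NumberField k] {ι J : Type} [Fintype ι] [Fintype J]
  (ω : Module.Basis J ℤ (𝓞 k))

lemma D0_B (δ : Den (ι × J)) {B : MvPolynomial ι (𝓞 k)} (hB : B ≠ 0) :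
    δ.D0 {w : ι × J → ℤ | MvPolynomial.eval (vec ω w) B = 0} := by
  obtain ⟨n, hn, hdvd⟩ := norm_poly ω B hB
  intro ε hε
  refine δ.mono (Den.D0.zero (δ := δ) n hn ε hε) ?_
  intro w hw
  have h1 := hdvd w
  have h2 : MvPolynomial.eval (vec ω w) B = 0 := hw
  rw [h2, zero_dvd_iff] at h1
  show MvPolynomial.eval w n = 0
  exact_mod_cast h1

variable (kb : Type) [Field kb] [Algebra k kb]

/-- **Transfer.** If the generic member of a family of endomorphisms of projective space over a
number field `k` has at most `C` preperiodic points of degree at most `B` over the field of rational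
functions, then 100% of the members have at most `C` preperiodic points of degree at most `B` over
`k`. -/
theorem transferB (δ : Den (ι × J)) {N d s B C : ℕ} (hd : 2 ≤ d)
    (a : Idx (N + 1) d → MvPolynomial ι (𝓞 k)) (c : MvPolynomial ι (𝓞 k)) (hc : c ≠ 0)
    (hM : MonC s c (sy a))
    (hgen : FewB (AlgebraicClosure (FractionRing (MvPolynomial ι (𝓞 k)))) B C
      (fun i => algebraMap (MvPolynomial ι (𝓞 k)) (FractionRing (MvPolynomial ι (𝓞 k))) (a i))) :
    δ.D0 {w : ι × J → ℤ | ¬ (eval (vec ω w) c ≠ 0 ∧ FewB kb B C (cf ω a w))} := by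
  classical
  intro ε hε
  by_contra hcon
  set Bad : Set (ι × J → ℤ) := {w | ¬ (eval (vec ω w) c ≠ 0 ∧ FewB kb B C (cf ω a w))} with hBad
  obtain ⟨n, hn, hdvd⟩ := norm_poly ω c hc
  obtain ⟨P₀, hP₀⟩ := δ.densp n hn (ε / 4) (by positivity)
  obtain ⟨p, hp, hpP⟩ := exists_prime_ge P₀
  obtain ⟨q, hq, hqP⟩ := exists_prime_ge (max P₀ (p + 1))
  have hpq : p ≠ q := by
    have := (le_max_right P₀ (p + 1)).trans hqP
    omega
  obtain ⟨Wp, hWp, hRp⟩ := red p (Module.finrank ℚ k * B) (N + 1) hp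
  obtain ⟨Wq, hWq, hRq⟩ := red q (Module.finrank ℚ k * B) (N + 1) hq
  set Bad' : Set (ι × J → ℤ) := {w | w ∈ Bad ∧ ¬ (p : ℤ) ∣ eval w n ∧ ¬ (q : ℤ) ∣ eval w n}
    with hBad'
  have hnot : ¬ δ.D0 Bad' := by
    intro h0
    apply hcon
    have h1 := δ.union (δ.union (h0 (ε / 2) (by positivity)) (hP₀ p hp hpP))
      (hP₀ q hq ((le_max_left _ _).trans hqP))
    rw [show ε / 2 + ε / 4 + ε / 4 = ε by ring] at h1
    refine δ.mono h1 ?_
    intro w hw
    by_cases h2 : (p : ℤ) ∣ eval w n
    · exact Or.inl (Or.inr h2)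
    · by_cases h3 : (q : ℤ) ∣ eval w n
      · exact Or.inr h3
      · exact Or.inl (Or.inl ⟨hw, h2, h3⟩)
  obtain ⟨U, hU, hUB⟩ := δ.exu Bad' hnot
  have key : ∀ w ∈ Bad', ∃ (x : Fin (C + 1) → Fin (N + 1) → kb)
      (i0 : Fin (C + 1) → Fin (N + 1)) (F : Fin (C + 1) → IntermediateField k kb),
      (∀ l, x l (i0 l) = 1) ∧ (∀ l l' (c : kb), x l = c • x l' → l = l') ∧
      (∀ l, ∃ c : kb, c ≠ 0 ∧
        (pt (sy fun i => algebraMap k kb (cf ω a w i)))^[C + Wp * Wq] (x l) =
        c • (pt (sy fun i => algebraMap k kb (cf ω a w i)))^[C] (x l)) ∧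
      ∀ l, FiniteDimensional k (F l) ∧ Module.finrank k (F l) ≤ B ∧ ∀ j, x l j ∈ F l := by
    rintro w ⟨hw, hwp, hwq⟩
    have hm0 : eval w n ≠ 0 := by
      intro h0
      rw [h0] at hwp
      exact hwp (dvd_zero _)
    have hcw : eval (vec ω w) c ≠ 0 := by
      intro h0
      have h1 := hdvd w
      rw [h0, zero_dvd_iff] at h1
      exact hm0 (by exact_mod_cast h1)
    have hfew : ¬ FewB kb B C (cf ω a w) := fun h => hw ⟨hcw, h⟩
    have hMw : MonC s (eval (vec ω w) c) (sy fun i => eval (vec ω w) (a i)) :=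
      hM.map (eval (vec ω w))
    have hMon : MonIn s (sy (cf ω a w)) := by
      refine (hMw.map (algebraMap (𝓞 k) k)).monIn ?_
      rw [isUnit_iff_ne_zero, Ne, FaithfulSMul.algebraMap_eq_zero_iff]
      exact hcw
    refine manyB hMon B C (Wp * Wq) ?_ hfew
    intro y hy hyB m hm hper
    exact per_B (kb := kb) W405.UB.main lev hp hq hpq hRp hRq le_rfl
      (fun i => eval (vec ω w) (a i)) (eval (vec ω w) c) hMw hMon (eval w n) (hdvd w) hwp hwq hy
      hyB hm hper
  choose! x i0 F hx using key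
  refine generic_ptsB ω W405.UB.main (H294UB.taskCnt H294UB.taskFib) W125.UB.FinT.fin_main
    hd (Nat.mul_pos hWp hWq) a c hc hM U (Den.gd hU) x i0 F ?_ hgen
  filter_upwards [hUB] with w hw
  exact hx w hw

end main

section

variable {k : Type} [Field k] [NumberField k] {m : ℕ}

/-- **Families of endomorphisms of projective space with `m` parameters, at all rational
parameters.** -/
theorem paramB {J : Type} [Fintype J] (ω : Module.Basis J ℤ (𝓞 k)) (δ : Den (Fin (m + 1) × J)) (kb : Type) [Field kb]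
    [Algebra k kb] {N d s B C₀ : ℕ} (hd : 2 ≤ d) (v : Idx (N + 1) d → MvPolynomial (Fin m) k)
    (hM : MonIn s (sy fun i =>
      algebraMap (MvPolynomial (Fin m) k) (FractionRing (MvPolynomial (Fin m) k)) (v i)))
    (hgen : FewB (AlgebraicClosure (FractionRing (MvPolynomial (Fin m) k))) B C₀
      (fun i => algebraMap (MvPolynomial (Fin m) k) (FractionRing (MvPolynomial (Fin m) k)) (v i))) :
    δ.D0 {w : Fin (m + 1) × J → ℤ | ¬ (vec ω w 0 ≠ 0 ∧
      (∃ s, MonIn s (sy fun i => eval (tp ω w) (v i))) ∧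
      FewB kb B C₀ (fun i => eval (tp ω w) (v i)))} := by
  classical
  have hcz : CharZero (FractionRing (MvPolynomial (Fin m) k)) :=
    charZero_of_injective_algebraMap (R := k) (algebraMap k _).injective
  obtain ⟨c, hc, hci⟩ := exists_mult v
  set e : ℕ := Finset.univ.sup fun i => (v i).totalDegree with he
  have hve : ∀ i, (v i).totalDegree ≤ e := fun i =>
    Finset.le_sup (f := fun i => (v i).totalDegree) (Finset.mem_univ i)
  set A : Fin m → MvPolynomial (Fin (m + 1)) (𝓞 k) := fun l => X l.succ with hA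
  set B₀ : MvPolynomial (Fin (m + 1)) (𝓞 k) := X 0 with hB₀
  set a : Idx (N + 1) d → MvPolynomial (Fin (m + 1)) (𝓞 k) := fun i => homm A B₀ c e (v i) with ha
  have hB₀0 : B₀ ≠ 0 := MvPolynomial.X_ne_zero 0
  have hBK : algebraMap (MvPolynomial (Fin (m + 1)) (𝓞 k)) (KK k (Fin (m + 1))) B₀ ≠ 0 := by
    rw [Ne, FaithfulSMul.algebraMap_eq_zero_iff]
    exact hB₀0
  set u : KK k (Fin (m + 1)) := kap c *
    algebraMap (MvPolynomial (Fin (m + 1)) (𝓞 k)) (KK k (Fin (m + 1))) B₀ ^ e with hu
  have hu0 : u ≠ 0 := mul_ne_zero ((map_ne_zero kap).2 hc) (pow_ne_zero _ hBK)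
  have haK : (fun i => algebraMap (MvPolynomial (Fin (m + 1)) (𝓞 k)) (KK k (Fin (m + 1))) (a i)) =
      fun i => u * TM k m (algebraMap (MvPolynomial (Fin m) k)
        (FractionRing (MvPolynomial (Fin m) k)) (v i)) := by
    funext i
    rw [ha]
    simp only
    rw [homm_map kap (algebraMap (MvPolynomial (Fin (m + 1)) (𝓞 k)) (KK k (Fin (m + 1)))) kap_spec
      hBK (v i) (hve i) (hci i), TM_apply, aeval_kap]
    rfl
  -- the generic member
  have hMT : MonIn s (sy fun i =>
      algebraMap (MvPolynomial (Fin (m + 1)) (𝓞 k)) (KK k (Fin (m + 1))) (a i)) := by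
    rw [haK]
    exact monIn_scale hu0 (monIn_map (TM k m) hM)
  have hgen' : FewB (AlgebraicClosure (KK k (Fin (m + 1)))) B C₀ (fun i =>
      algebraMap (MvPolynomial (Fin (m + 1)) (𝓞 k)) (KK k (Fin (m + 1))) (a i)) := by
    rw [haK]
    exact fewB_scale hu0 _ (fewB_ext W405.UB.main (H294UB.taskCnt H294UB.taskFib)
      W125.UB.FinT.fin_main (TM k m) TM_cl hd _ hM hgen)
  obtain ⟨s', c', hc', hMC⟩ := exists_monC
    ((algebraMap (KK k (Fin (m + 1))) (AlgebraicClosure (KK k (Fin (m + 1))))).comp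
      (algebraMap (MvPolynomial (Fin (m + 1)) (𝓞 k)) (KK k (Fin (m + 1))))) a (by
      intro x hx
      exact no_zero _ (monIn_map (algebraMap (KK k (Fin (m + 1)))
        (AlgebraicClosure (KK k (Fin (m + 1))))) hMT) x hx)
  have hc'0 : c' ≠ 0 := by
    rintro rfl
    exact hc' (map_zero _)
  have h1 := (transferB ω kb δ hd a c' hc'0 hMC hgen').union (D0_B ω δ hB₀0)
  intro ε hε
  refine δ.mono (h1 ε hε) ?_
  intro w hw
  by_contra hcon
  rw [Set.mem_union, not_or] at hcon
  obtain ⟨hcon1, hcon2⟩ := hcon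
  have hcon1' : eval (vec ω w) c' ≠ 0 ∧ FewB kb B C₀ (cf ω a w) := by
    by_contra h2
    exact hcon1 h2
  have hBw : sp ω w B₀ ≠ 0 := by
    rw [sp, RingHom.comp_apply, Ne, FaithfulSMul.algebraMap_eq_zero_iff]
    exact hcon2
  have hspX : ∀ i : Fin (m + 1), sp ω w (X i) = algebraMap (𝓞 k) k (vec ω w i) := by
    intro i
    rw [sp, RingHom.comp_apply, MvPolynomial.eval_X]
  have hspec : ∀ y, sp ω w (MvPolynomial.C y : MvPolynomial (Fin (m + 1)) (𝓞 k)) =
      (RingHom.id k) (algebraMap (𝓞 k) k y) := by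
    intro y
    rw [sp, RingHom.comp_apply, MvPolynomial.eval_C, RingHom.id_apply]
  have hcf : cf ω a w = fun i => (c * sp ω w B₀ ^ e) * eval (tp ω w) (v i) := by
    funext i
    show sp ω w (homm A B₀ c e (v i)) = _
    rw [homm_map (RingHom.id k) (sp ω w) hspec hBw (v i) (hve i) (hci i), RingHom.id_apply]
    congr 1
    have h2 : (fun l => sp ω w (A l) / sp ω w B₀) = tp ω w := by
      funext l
      rw [hA, hB₀]
      simp only
      rw [hspX, hspX]
      rfl
    rw [h2]
    rfl
  have hc0 : c * sp ω w B₀ ^ e ≠ 0 := mul_ne_zero hc (pow_ne_zero _ hBw)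
  apply hw
  refine ⟨?_, ⟨s', ?_⟩, ?_⟩
  · intro h0
    apply hBw
    rw [hB₀, hspX, h0, map_zero]
  · apply monIn_of_scale hc0
    have h3 : MonIn s' (sy (cf ω a w)) := by
      refine ((hMC.map (eval (vec ω w))).map (algebraMap (𝓞 k) k)).monIn ?_
      rw [isUnit_iff_ne_zero, Ne, FaithfulSMul.algebraMap_eq_zero_iff]
      exact hcon1'.1
    rwa [hcf] at h3
  · apply fewB_of_scale hc0
    have h3 := hcon1'.2
    rwa [hcf] at h3

end

theorem lowerB {k : Type} [Field k] [NumberField k] {ι J : Type} [Fintype ι] [Fintype J]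
    (ω : Module.Basis J ℤ (𝓞 k)) (δ : Den (ι × J)) (kb : Type) [Field kb] [Algebra k kb] [IsAlgClosed kb]
    {n d B C : ℕ} (a : Idx n d → MvPolynomial ι (𝓞 k))
    (h : ¬ FewB (AlgebraicClosure (FractionRing (MvPolynomial ι (𝓞 k)))) B C
      (fun i => algebraMap (MvPolynomial ι (𝓞 k)) (FractionRing (MvPolynomial ι (𝓞 k))) (a i))) :
    δ.D0 {w : ι × J → ℤ | FewB kb B C (cf ω a w)} := by
  classical
  have : CharZero (FractionRing (MvPolynomial ι (𝓞 k))) :=
    charZero_of_injective_algebraMap (R := MvPolynomial ι (𝓞 k))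
      (IsFractionRing.injective (MvPolynomial ι (𝓞 k)) (FractionRing (MvPolynomial ι (𝓞 k))))
  by_contra hcon
  obtain ⟨U, hU, hUG⟩ := δ.exu _ hcon
  let ψ : FractionRing (MvPolynomial ι (𝓞 k)) →+* UP U k := psiF ω (Den.gd hU)
  let iO : Algebra (FractionRing (MvPolynomial ι (𝓞 k))) (UP U kb) :=
    ((jU (kb := kb) U).comp ψ).toAlgebra
  have hac : IsAlgClosed (UP U kb) := up_closed
  let τ : AlgebraicClosure (FractionRing (MvPolynomial ι (𝓞 k)))
    →ₐ[FractionRing (MvPolynomial ι (𝓞 k))] UP U kb := IsAlgClosed.lift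
  have h1 := lift_up (kb := kb) ψ (τ : _ →+* UP U kb) (fun c => τ.commutes c)
    (vw := fun i w => cf ω a w i) (fun i => by
      rw [psiF_algebraMap, rho_apply]
      rfl) h
  have h2 : ∀ᶠ w in (U : Filter (ι × J → ℤ)), FewB kb B C (cf ω a w) := hUG
  obtain ⟨w, hw1, hw2⟩ := (h1.and h2).exists
  exact hw1 hw2

section

variable {k : Type} [Field k] [NumberField k] {m : ℕ}

theorem lowerParam {J : Type} [Fintype J] (ω : Module.Basis J ℤ (𝓞 k))
    (δ : Den (Fin (m + 1) × J)) (kb : Type) [Field kb]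
    [Algebra k kb] [IsAlgClosed kb] {N d B C₀ : ℕ} (v : Idx (N + 1) d → MvPolynomial (Fin m) k)
    (hgen : ¬ FewB (AlgebraicClosure (FractionRing (MvPolynomial (Fin m) k))) B C₀
      (fun i => algebraMap (MvPolynomial (Fin m) k) (FractionRing (MvPolynomial (Fin m) k)) (v i))) :
    δ.D0 {w : Fin (m + 1) × J → ℤ | FewB kb B C₀ (fun i => eval (tp ω w) (v i))} := by
  classical
  obtain ⟨c, hc, hci⟩ := exists_mult v
  set e : ℕ := Finset.univ.sup fun i => (v i).totalDegree with he
  have hve : ∀ i, (v i).totalDegree ≤ e := fun i =>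
    Finset.le_sup (f := fun i => (v i).totalDegree) (Finset.mem_univ i)
  set A : Fin m → MvPolynomial (Fin (m + 1)) (𝓞 k) := fun l => X l.succ with hA
  set B₀ : MvPolynomial (Fin (m + 1)) (𝓞 k) := X 0 with hB₀
  set a : Idx (N + 1) d → MvPolynomial (Fin (m + 1)) (𝓞 k) := fun i => homm A B₀ c e (v i) with ha
  have hB₀0 : B₀ ≠ 0 := MvPolynomial.X_ne_zero 0
  have hBK : algebraMap (MvPolynomial (Fin (m + 1)) (𝓞 k)) (KK k (Fin (m + 1))) B₀ ≠ 0 := by
    rw [Ne, FaithfulSMul.algebraMap_eq_zero_iff]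
    exact hB₀0
  set u : KK k (Fin (m + 1)) := kap c *
    algebraMap (MvPolynomial (Fin (m + 1)) (𝓞 k)) (KK k (Fin (m + 1))) B₀ ^ e with hu
  have hu0 : u ≠ 0 := mul_ne_zero ((map_ne_zero kap).2 hc) (pow_ne_zero _ hBK)
  have haK : (fun i => algebraMap (MvPolynomial (Fin (m + 1)) (𝓞 k)) (KK k (Fin (m + 1))) (a i)) =
      fun i => u * TM k m (algebraMap (MvPolynomial (Fin m) k)
        (FractionRing (MvPolynomial (Fin m) k)) (v i)) := by
    funext i
    rw [ha]
    simp only
    rw [homm_map kap (algebraMap (MvPolynomial (Fin (m + 1)) (𝓞 k)) (KK k (Fin (m + 1)))) kap_spec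
      hBK (v i) (hve i) (hci i), TM_apply, aeval_kap]
    rfl
  have hgen' : ¬ FewB (AlgebraicClosure (KK k (Fin (m + 1)))) B C₀ (fun i =>
      algebraMap (MvPolynomial (Fin (m + 1)) (𝓞 k)) (KK k (Fin (m + 1))) (a i)) := by
    rw [haK]
    intro h
    exact hgen (fewB_sub (TM k m) (fewB_of_scale hu0 _ h))
  have h1 := (lowerB ω δ kb a hgen').union (D0_B ω δ hB₀0)
  intro ε hε
  refine δ.mono (h1 ε hε) ?_
  intro w hw
  by_contra hcon
  rw [Set.mem_union, not_or] at hcon
  obtain ⟨hcon1, hcon2⟩ := hcon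
  have hBw : sp ω w B₀ ≠ 0 := by
    rw [sp, RingHom.comp_apply, Ne, FaithfulSMul.algebraMap_eq_zero_iff]
    exact hcon2
  have hspX : ∀ i : Fin (m + 1), sp ω w (X i) = algebraMap (𝓞 k) k (vec ω w i) := by
    intro i
    rw [sp, RingHom.comp_apply, MvPolynomial.eval_X]
  have hspec : ∀ y, sp ω w (MvPolynomial.C y : MvPolynomial (Fin (m + 1)) (𝓞 k)) =
      (RingHom.id k) (algebraMap (𝓞 k) k y) := by
    intro y
    rw [sp, RingHom.comp_apply, MvPolynomial.eval_C, RingHom.id_apply]
  have hcf : cf ω a w = fun i => (c * sp ω w B₀ ^ e) * eval (tp ω w) (v i) := by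
    funext i
    show sp ω w (homm A B₀ c e (v i)) = _
    rw [homm_map (RingHom.id k) (sp ω w) hspec hBw (v i) (hve i) (hci i), RingHom.id_apply]
    congr 1
    have h2 : (fun l => sp ω w (A l) / sp ω w B₀) = tp ω w := by
      funext l
      rw [hA, hB₀]
      simp only
      rw [hspX, hspX]
      rfl
    rw [h2]
    rfl
  have hc0 : c * sp ω w B₀ ^ e ≠ 0 := mul_ne_zero hc (pow_ne_zero _ hBw)
  apply hcon1
  show FewB kb B C₀ (cf ω a w)
  rw [hcf]
  exact fewB_scale hc0 _ hw

/-- **The number of the preperiodic points of degree at most `B` of almost all members of a family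
of endomorphisms of projective space is equal to that of the generic member, which is finite.** -/
theorem main5 (k : Type) [Field k] [NumberField k] (N d : ℕ) (hd : 2 ≤ d) (m : ℕ)
    (F : Fin (N + 1) → MvPolynomial (Fin (N + 1)) (MvPolynomial (Fin m) k))
    (hF : ∀ i, (F i).IsHomogeneous d)
    (hmor : MorP fun i => (F i).map (algebraMap (MvPolynomial (Fin m) k)
      (FractionRing (MvPolynomial (Fin m) k)))) (B : ℕ) :
    (preP (fun i => (F i).map (algebraMap (MvPolynomial (Fin m) k)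
      (FractionRing (MvPolynomial (Fin m) k)))) B).Finite ∧
    ∀ (J : Type) [Fintype J] (ω : Module.Basis J ℤ (𝓞 k)) (δ : Den (Fin (m + 1) × J)),
      δ.D0 {w : Fin (m + 1) × J → ℤ | ¬ (vec ω w 0 ≠ 0 ∧
          MorP (fun i => (F i).map (MvPolynomial.eval fun l : Fin m =>
            algebraMap (𝓞 k) k (vec ω w l.succ) / algebraMap (𝓞 k) k (vec ω w 0))) ∧
          (preP (fun i => (F i).map (MvPolynomial.eval fun l : Fin m =>
            algebraMap (𝓞 k) k (vec ω w l.succ) / algebraMap (𝓞 k) k (vec ω w 0))) B).encard =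
          (preP (fun i => (F i).map (algebraMap (MvPolynomial (Fin m) k)
            (FractionRing (MvPolynomial (Fin m) k)))) B).encard)} := by
  classical
  set R := MvPolynomial (Fin m) k with hR
  set v : Idx (N + 1) d → R := fun i => coeff (expo i.2) (F i.1) with hv
  have hFv : F = sy v := by
    funext i
    exact (form_coeff (hF i)).symm
  have hmap : ∀ {S : Type} [CommRing S] (φ : R →+* S),
      (fun i => (F i).map φ) = sy fun i => φ (v i) := by
    intro S _ φ
    rw [hFv]
    exact Pool.Agent.W193.UB.map_sy φ v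
  rw [hmap] at hmor ⊢
  set vK : Idx (N + 1) d → FractionRing R := fun i => algebraMap R (FractionRing R) (v i) with hvK
  -- the generic member
  obtain ⟨s, c, hc, hMC⟩ := exists_monC (algebraMap (FractionRing R)
    (AlgebraicClosure (FractionRing R))) vK (by
      intro x hx
      apply hmor x
      intro i
      have h1 := hx i
      rw [← Pool.Agent.W193.UB.map_sy, eval_map] at h1
      rw [aeval_def]
      exact h1)
  have hc0 : c ≠ 0 := by
    rintro rfl
    exact hc (map_zero _)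
  have hM : MonIn s (sy vK) := hMC.monIn (isUnit_iff_ne_zero.2 hc0)
  obtain ⟨C, hC⟩ := np_RF (k := k) m N d s vK hd hM B
  have hfew := hC (AlgebraicClosure (FractionRing R))
  have hle := (few_iff hM B C).1 hfew
  have hfin : (preP (sy vK) B).Finite :=
    Set.encard_lt_top_iff.1 (hle.trans_lt (ENat.natCast_lt_top C))
  obtain ⟨n, hn⟩ : ∃ n : ℕ, (preP (sy vK) B).encard = (n : ℕ∞) :=
    ⟨_, hfin.encard_eq_coe_toFinset_card⟩
  refine ⟨hfin, ?_⟩
  intro J _ ω δ
  have hup : FewB (AlgebraicClosure (FractionRing R)) B n vK := (few_iff hM B n).2 hn.le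
  have h3 := paramB ω δ (AlgebraicClosure k) hd v hM hup
  have h4 : δ.D0 {w : Fin (m + 1) × J → ℤ | 1 ≤ n ∧
      FewB (AlgebraicClosure k) B (n - 1) (fun i => eval (tp ω w) (v i))} := by
    by_cases hn1 : 1 ≤ n
    · have h5 : ¬ FewB (AlgebraicClosure (FractionRing R)) B (n - 1) vK := by
        intro h6
        have h7 := (few_iff hM B (n - 1)).1 h6
        rw [hn] at h7
        have h8 : n ≤ n - 1 := by exact_mod_cast h7
        omega
      have h6 := lowerParam ω δ (AlgebraicClosure k) v h5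
      intro ε hε
      exact δ.mono (h6 ε hε) fun w hw => hw.2
    · intro ε hε
      exact δ.mono (Den.D0.empty (δ := δ) ε hε) fun w hw => absurd hw.1 hn1
  intro ε hε
  refine δ.mono ((h3.union h4) ε hε) ?_
  intro w hw
  by_contra hcon
  rw [Set.mem_union, not_or] at hcon
  obtain ⟨hcon1, hcon2⟩ := hcon
  apply hw
  have hcon1' : vec ω w 0 ≠ 0 ∧ (∃ s, MonIn s (sy fun i => eval (tp ω w) (v i))) ∧
      FewB (AlgebraicClosure k) B n (fun i => eval (tp ω w) (v i)) := by
    by_contra h5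
    exact hcon1 h5
  obtain ⟨g1, ⟨s', g2⟩, g3⟩ := hcon1'
  have g4 : ¬ (1 ≤ n ∧ FewB (AlgebraicClosure k) B (n - 1) (fun i => eval (tp ω w) (v i))) := hcon2
  refine ⟨g1, ?_, ?_⟩
  · show MorP (fun i => (F i).map (MvPolynomial.eval (tp ω w)))
    rw [hmap]
    intro x hx
    have g5 : MonIn s' (sy fun i => algebraMap k (AlgebraicClosure k) (eval (tp ω w) (v i))) :=
      monIn_map (algebraMap k (AlgebraicClosure k)) g2
    apply no_zero _ g5 x
    intro i
    have h1 := hx i
    rw [aeval_def] at h1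
    rw [← Pool.Agent.W193.UB.map_sy, eval_map]
    exact h1
  · show (preP (fun i => (F i).map (MvPolynomial.eval (tp ω w))) B).encard = _
    rw [hmap, hn]
    apply le_antisymm
    · exact (few_iff g2 B n).1 g3
    · by_contra hlt
      push Not at hlt
      apply g4
      have hn1 : 1 ≤ n := by
        by_contra h0
        have h1 : n = 0 := by omega
        rw [h1] at hlt
        simp at hlt
      refine ⟨hn1, (few_iff g2 B (n - 1)).2 ?_⟩
      have h5 : ((n - 1 : ℕ) : ℕ∞) + 1 = (n : ℕ∞) := by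
        norm_cast
        omega
      rw [← h5] at hlt
      exact Order.le_of_lt_add_one hlt

end

end Pool.Agent.N938.TD.Y
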