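import Pool.Agent.N938.TD.OneSet
import Pool.Agent.N938.TD.YFam

/-!
# All families of endomorphisms over all number fields (helper938)
-/

set_option autoImplicit false
set_option linter.unusedSectionVars false

namespace Pool.Agent.N938.TD

open NumberField
open Pool.Agent.Y706 (MorP preP vec)

/-- a family of endomorphisms of projective space over a number field in `ℂ`, with an integral basis -/
structure Fam5 where
  k : Subfield ℂ
  hk : NumberField k
  r : ℕ
  N : ℕ
  d : ℕ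
  m : ℕ
  B : ℕ
  ω : Module.Basis (Fin r) ℤ (𝓞 k)
  G : Fin (N + 1) → MvPolynomial (Fin (N + 1)) (MvPolynomial (Fin m) k)
  hd : 2 ≤ d
  hG : ∀ i, (G i).IsHomogeneous d
  hmor : MorP fun i => (G i).map (algebraMap (MvPolynomial (Fin m) k)
      (FractionRing (MvPolynomial (Fin m) k)))

theorem fam5_countable : Countable Fam5 := by
  have h1 : Countable {k : Subfield ℂ // NumberField k} := nf_countable
  have h2 : ∀ k : {k : Subfield ℂ // NumberField k}, Countable k.1 := fun k => by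
    have := k.2
    exact field_countable k.1
  have h3 : ∀ (k : {k : Subfield ℂ // NumberField k}) (r : ℕ),
      Countable (Module.Basis (Fin r) ℤ (𝓞 k.1)) := fun k r => basis_countable k.1 r
  have h4 : ∀ (k : {k : Subfield ℂ // NumberField k}) (n m : ℕ),
      Countable (MvPolynomial (Fin n) (MvPolynomial (Fin m) k.1)) := fun k n m => by
    have := mv_countable m k.1
    exact mv_countable n _
  refine Function.Injective.countable (β := Σ (k : {k : Subfield ℂ // NumberField k}) (r : ℕ)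
    (N : ℕ) (_ : ℕ) (m : ℕ) (_ : ℕ), Module.Basis (Fin r) ℤ (𝓞 k.1) ×
      (Fin (N + 1) → MvPolynomial (Fin (N + 1)) (MvPolynomial (Fin m) k.1)))
    (f := fun f => ⟨⟨f.k, f.hk⟩, f.r, f.N, f.d, f.m, f.B, f.ω, f.G⟩) ?_
  rintro ⟨k, hk, r, N, d, m, B, ω, G, hd, hG, hmor⟩ ⟨k', hk', r', N', d', m', B', ω', G', hd', hG', hmor'⟩ h
  cases h
  rfl

/-- the vectors at which the member of the family is bad -/
def bad5 (f : Fam5) : Set (Fin (f.m + 1) × Fin f.r → ℤ) :=
  {w | ¬ (vec f.ω w 0 ≠ 0 ∧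
    MorP (fun i => (f.G i).map (MvPolynomial.eval fun l : Fin f.m =>
      algebraMap (𝓞 f.k) f.k (vec f.ω w l.succ) / algebraMap (𝓞 f.k) f.k (vec f.ω w 0))) ∧
    (preP (fun i => (f.G i).map (MvPolynomial.eval fun l : Fin f.m =>
      algebraMap (𝓞 f.k) f.k (vec f.ω w l.succ) / algebraMap (𝓞 f.k) f.k (vec f.ω w 0))) f.B).encard =
    (preP (fun i => (f.G i).map (algebraMap (MvPolynomial (Fin f.m) f.k)
      (FractionRing (MvPolynomial (Fin f.m) f.k)))) f.B).encard)}

theorem bad5_D0 (f : Fam5) (δ : Den (Fin (f.m + 1) × Fin f.r)) : δ.D0 (bad5 f) := by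
  have := f.hk
  exact (Y.main5 f.k f.N f.d f.hd f.m f.G f.hG f.hmor f.B).2 (Fin f.r) f.ω δ

theorem vec_eq {k : Type} [Field k] [NumberField k] {r : ℕ} (ω : Module.Basis (Fin r) ℤ (𝓞 k))
    {m : ℕ} (w : Fin (m + 1) × Fin r → ℤ) :
    vec ω w = fun l => ∑ j : Fin r, w (l, j) • ω j := by
  funext l
  unfold Pool.Agent.Y706.vec Pool.Agent.W275.UB.cv
  refine Finset.sum_congr rfl fun j _ => ?_
  rw [zsmul_eq_mul, mul_comm]

/-- **All families of endomorphisms of projective spaces over all number fields along an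
equidistributed array.** -/
theorem all5 {x : ℕ → ℕ → ℕ → ℤ} {S₁ S₂ : ℕ → Finset ℕ}
    (hS₁ : ∀ N, S₁ N ⊆ Finset.Ioc N (2 * N)) (hS₂ : ∀ N, S₂ N ⊆ Finset.Ioc N (2 * N))
    (h₁ : EquiA S₁ x) (h₂ : EquiA S₂ x) :
    ∃ E : Set ℕ, Pool.Agent.N666.TM.NullIn S₁ E ∧ Pool.Agent.N666.TM.NullIn S₂ E ∧
      ∀ (k : Subfield ℂ) [NumberField k] (r : ℕ) (ω : Module.Basis (Fin r) ℤ (𝓞 k)) (N d : ℕ),
        2 ≤ d → ∀ (m : ℕ) (G : Fin (N + 1) → MvPolynomial (Fin (N + 1)) (MvPolynomial (Fin m) k)),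
        (∀ i, (G i).IsHomogeneous d) → (MorP fun i => (G i).map
          (algebraMap (MvPolynomial (Fin m) k) (FractionRing (MvPolynomial (Fin m) k)))) →
        ∀ B : ℕ,
          (preP (fun i => (G i).map (algebraMap (MvPolynomial (Fin m) k)
            (FractionRing (MvPolynomial (Fin m) k)))) B).Finite ∧
          {t : ℕ | t ∉ E ∧ ∀ v : Fin (m + 1) → 𝓞 k, (v = fun l : Fin (m + 1) => ∑ j : Fin r, x l j t • ω j) →
            ¬ (v 0 ≠ 0 ∧
              MorP (fun i => (G i).map (MvPolynomial.eval fun l : Fin m =>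
                algebraMap (𝓞 k) k (v l.succ) / algebraMap (𝓞 k) k (v 0))) ∧
              (preP (fun i => (G i).map (MvPolynomial.eval fun l : Fin m =>
                algebraMap (𝓞 k) k (v l.succ) / algebraMap (𝓞 k) k (v 0))) B).encard =
              (preP (fun i => (G i).map (algebraMap (MvPolynomial (Fin m) k)
                (FractionRing (MvPolynomial (Fin m) k)))) B).encard)}.Finite := by
  have := fam5_countable
  obtain ⟨E, h1, h2, h3⟩ := one_set hS₁ hS₂ h₁ h₂ (I := Fam5) (fun f => f.r) (fun f => f.m)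
    bad5 bad5_D0
  refine ⟨E, h1, h2, ?_⟩
  intro k hk r ω N d hd m G hG hmor B
  refine ⟨(Y.main5 k N d hd m G hG hmor B).1, ?_⟩
  refine (h3 ⟨k, hk, r, N, d, m, B, ω, G, hd, hG, hmor⟩).subset ?_
  rintro t ⟨htE, ht⟩
  refine ⟨htE, ?_⟩
  exact ht (vec ω fun q : Fin (m + 1) × Fin r => x q.1 q.2 t) (vec_eq ω _)

end Pool.Agent.N938.TD
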