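import Pool.Agent.N666.TM.Diag

/-!
# Countably many null sets (helper938)
-/

set_option autoImplicit false
set_option linter.unusedSectionVars false

namespace Pool.Agent.N938.TD

open Pool.Agent.N666.TM
open Pool.Agent.N666.VE (primes)

/-- **Countably many null sets**: one null set contains all of them up to finite sets. -/
theorem diagC {I : Type*} [Countable I] {bad : I → Set ℕ} {S₁ S₂ : ℕ → Finset ℕ}
    (hS₁ : ∀ N, S₁ N ⊆ Finset.Ioc N (2 * N)) (hS₂ : ∀ N, S₂ N ⊆ Finset.Ioc N (2 * N))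
    (h₁ : ∀ i, NullIn S₁ (bad i)) (h₂ : ∀ i, NullIn S₂ (bad i)) :
    ∃ E : Set ℕ, NullIn S₁ E ∧ NullIn S₂ E ∧ ∀ i, {t : ℕ | t ∉ E ∧ t ∈ bad i}.Finite := by
  classical
  have hnull0 : ∀ S : ℕ → Finset ℕ, NullIn S ∅ := by
    intro S ε hε
    refine ⟨0, fun N _ => ?_⟩
    have : {t : ℕ | t ∈ S N ∧ t ∈ (∅ : Set ℕ)} = ∅ := by
      ext n
      simp
    rw [this, Set.ncard_empty]
    push_cast
    positivity
  have hunion : ∀ (S : ℕ → Finset ℕ) (A B : Set ℕ), NullIn S A → NullIn S B → NullIn S (A ∪ B) := by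
    intro S A B hA hB ε hε
    obtain ⟨N₁, a1⟩ := hA (ε / 2) (by positivity)
    obtain ⟨N₂, a2⟩ := hB (ε / 2) (by positivity)
    refine ⟨max N₁ N₂, fun N hN => ?_⟩
    have b1 := a1 N ((le_max_left _ _).trans hN)
    have b2 := a2 N ((le_max_right _ _).trans hN)
    have h3 : {t : ℕ | t ∈ S N ∧ t ∈ A ∪ B} = {t | t ∈ S N ∧ t ∈ A} ∪ {t | t ∈ S N ∧ t ∈ B} := by
      ext n
      simp only [Set.mem_union, Set.mem_ofPred_eq]
      tauto
    have h4 : ((({t : ℕ | t ∈ S N ∧ t ∈ A} ∪ {t | t ∈ S N ∧ t ∈ B}).ncard : ℕ) : ℝ) ≤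
        ({t : ℕ | t ∈ S N ∧ t ∈ A}.ncard : ℝ) + ({t : ℕ | t ∈ S N ∧ t ∈ B}.ncard : ℝ) := by
      exact_mod_cast Set.ncard_union_le _ _
    rw [h3]
    linarith
  rcases isEmpty_or_nonempty I with hI | hI
  · exact ⟨∅, hnull0 _, hnull0 _, fun i => isEmptyElim i⟩
  · obtain ⟨f, hf⟩ := exists_surjective_nat I
    set E : ℕ → Set ℕ := fun k => ⋃ i ∈ Finset.range (k + 1), bad (f i) with hE
    have hbi : ∀ (S : ℕ → Finset ℕ), (∀ i, NullIn S (bad i)) → ∀ k, NullIn S (E k) := by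
      intro S hS k
      rw [hE]
      simp only
      generalize k + 1 = n
      induction n with
      | zero => simpa using hnull0 S
      | succ n ih =>
        rw [Finset.range_add_one, Finset.set_biUnion_insert]
        exact hunion S _ _ (hS _) ih
    have hmono : Monotone E := by
      intro k k' hkk
      rw [hE]
      simp only
      refine Set.biUnion_mono ?_ fun i _ => le_rfl
      intro i hi
      simp only [Finset.coe_range, Set.mem_Iio] at hi ⊢
      omega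
    obtain ⟨E', g1, g2, g3⟩ := diag hmono hS₁ hS₂ (hbi _ h₁) (hbi _ h₂)
    refine ⟨E', g1, g2, fun i => ?_⟩
    obtain ⟨n, rfl⟩ := hf i
    refine (g3 n).subset ?_
    rintro t ⟨ht1, ht2⟩
    refine ⟨?_, ht1⟩
    rw [hE]
    simp only [Set.mem_iUnion]
    exact ⟨n, Finset.mem_range.2 (by omega), ht2⟩

end Pool.Agent.N938.TD
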