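import Pool.Agent.N938.TD.Type
import Pool.Agent.W275.ND.All

set_option autoImplicit false

/-!
# Preperiodic points of small degree for abstract densities

Copies of `Pool.Agent.W275.ND.bad0`, `no_low`, `final_free` (starting files) with the density of boxes
replaced by an abstract density `δ : Den (Idx (N + 1) d × J)`.
-/

namespace Pool.Agent.N938.TD

open MvPolynomial Pool.Agent.H936R2 Pool.Agent.H927R2.RD H294UB
open Pool.Agent.W275.UB hiding D0 UD bad1 typ2 bddO_of_type
open Pool.Agent.W275.ND hiding bad0 no_low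

theorem bad0 (hitr : S_itr) (htab : S_tab) (hfin : S_fin) (hcnt : TaskCnt)
    {N d D s : ℕ} (hd : 2 ≤ d) {O J : Type} [CommRing O] [IsDomain O] [Fintype J]
    (δ : Den (Idx (N + 1) d × J))
    (ω : Module.Basis J ℤ O) (c₁ : MvPolynomial (Idx (N + 1) d) ℤ)
    (cn : MvPolynomial (Idx (N + 1) d × J) ℤ) (hcn : cn ≠ 0)
    (hdiv : ∀ (R : Type) [CommRing R] (σ : O →+* R) (w : Idx (N + 1) d × J → R),
      aeval (cv (fun j => σ (ω j)) w) c₁ ∣ aeval w cn)
    (hMac : Mac c₁ s) (b1 e1 : ℕ) (he1 : 0 < e1)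
    (hloc : ∀ (L : Type) [Field L] [Algebra (EE (Idx (N + 1) d × J)) L]
      [FiniteDimensional (EE (Idx (N + 1) d × J)) L],
      Module.finrank (EE (Idx (N + 1) d × J)) L ≤ D → ∀ σ : O →+* L,
      ∀ x : Fin (N + 1) → L, x ≠ 0 →
      (∀ k, (pt (sy (cv (fun j => σ (ω j)) fun q =>
        gn (Idx (N + 1) d × J) L (X q))))^[k] x ≠ 0) →
      (∃ m n : ℕ, m < n ∧ ∃ c : L, c ≠ 0 ∧
        (pt (sy (cv (fun j => σ (ω j)) fun q => gn (Idx (N + 1) d × J) L (X q))))^[n] x =
          c • (pt (sy (cv (fun j => σ (ω j)) fun q => gn (Idx (N + 1) d × J) L (X q))))^[m] x) →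
      False)
    (i0 : Fin (N + 1)) :
    δ.D0 {w : Idx (N + 1) d × J → ℤ |
      ∃ (K : Type) (_ : Field K) (_ : NumberField K) (y : Fin (N + 1) ⊕ J → K),
        Module.finrank ℚ K ≤ D ∧
        (∀ g ∈ GO ω b1 e1 i0, eval₂ ((Int.castRingHom K).comp (eval w)) y g = 0)} := by
  classical
  by_contra hcon
  obtain ⟨L, _, _, y, hfd, hdeg, hy, hne⟩ := δ.genT (Fin (N + 1) ⊕ J) D
    (GO ω b1 e1 i0) 1 (by
      intro Ω _ _ _ y hy
      have hy' : y = Sum.elim (fun i => y (Sum.inl i)) (fun j => y (Sum.inr j)) := by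
        funext t
        cases t <;> rfl
      rw [hy'] at hy
      obtain ⟨⟨σ, hσ⟩, hx0, hmin⟩ := (go_iff hitr htab ω b1 e1 i0 _ _ _).1 hy
      rw [hσ] at hmin
      have hM := monIn_cv ω hcn hdiv hMac Ω σ
      -- the images of the basis are algebraic
      have hint : ∀ x : O, IsIntegral ℤ (σ x) := by
        intro x
        haveI : Module.Finite ℤ O := Module.Finite.of_basis ω
        have h1 : IsIntegral ℤ x := Algebra.IsIntegral.isIntegral x
        have h2 := h1.map (σ.toIntAlgHom)
        exact h2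
      have hintE : ∀ x : O, IsAlgebraic (EE (Idx (N + 1) d × J)) (σ x) := by
        intro x
        obtain ⟨p, hp, hpx⟩ := hint x
        refine IsIntegral.isAlgebraic
          ⟨p.map (Int.castRingHom (EE (Idx (N + 1) d × J))), hp.map _, ?_⟩
        rw [Polynomial.eval₂_map]
        have h2 : (algebraMap (EE (Idx (N + 1) d × J)) Ω).comp
            (Int.castRingHom (EE (Idx (N + 1) d × J))) = algebraMap ℤ Ω := RingHom.ext_int _ _
        rw [h2]
        exact hpx
      -- the algebraic closure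
      let E' := algebraicClosure (EE (Idx (N + 1) d × J)) Ω
      have hz' : ∀ j, ∃ z' : E', (z' : Ω) = σ (ω j) := fun j =>
        ⟨⟨σ (ω j), mem_algebraicClosure_iff.2 (hintE (ω j))⟩, rfl⟩
      choose z' hz' using hz'
      set v' : Idx (N + 1) d → E' := cv z' (fun q => gn (Idx (N + 1) d × J) E' (X q)) with hv'
      have hgn : ∀ q, algebraMap E' Ω (gn (Idx (N + 1) d × J) E' (X q)) =
          gn (Idx (N + 1) d × J) Ω (X q) := by
        intro q
        rw [gn, gn, RingHom.comp_apply, RingHom.comp_apply]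
        exact (IsScalarTower.algebraMap_apply (EE (Idx (N + 1) d × J)) E' Ω _).symm
      have hv : (fun i => algebraMap E' Ω (v' i)) =
          cv (fun j => σ (ω j)) fun q => gn (Idx (N + 1) d × J) Ω (X q) := by
        funext i
        simp only [hv', cv, map_sum, map_mul, hgn]
        apply Finset.sum_congr rfl
        intro j _
        congr 1
        exact hz' j
      have hP : (fun i => map (algebraMap E' Ω) (sy v' i)) =
          sy (cv (fun j => σ (ω j)) fun q => gn (Idx (N + 1) d × J) Ω (X q)) := by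
        rw [map_sy, hv]
      obtain ⟨C, hC⟩ := hcnt N s b1 e1 he1
      have hxalg : ∀ i, IsAlgebraic E' (y (Sum.inl i)) := by
        apply hfin E' Ω (N + 1) C
          (insert (X i0 - 1) (Set.range fun jk : Fin (N + 1) × Fin (N + 1) =>
            mnr (sy v') b1 e1 jk.1 jk.2))
        · intro Y hY
          have hY' : ∀ u ∈ Y, u i0 = 1 ∧ ∃ c : Ω, c ≠ 0 ∧
              (pt (sy (cv (fun j => σ (ω j)) fun q =>
                gn (Idx (N + 1) d × J) Ω (X q))))^[b1 + e1] u =
              c • (pt (sy (cv (fun j => σ (ω j)) fun q =>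
                gn (Idx (N + 1) d × J) Ω (X q))))^[b1] u := by
            intro u hu
            have h2 : u i0 = 1 := by
              have := hY u hu _ (Set.mem_insert _ _)
              rw [map_sub, aeval_X, map_one, sub_eq_zero] at this
              exact this
            have hu0 : u ≠ 0 := by
              intro h
              rw [h] at h2
              exact zero_ne_one h2
            refine ⟨h2, prop_of_minors _ _ (iter_ne_zero _ hM u hu0 _)
              (iter_ne_zero _ hM u hu0 _) fun j k => ?_⟩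
            have h3 := hY u hu _ (Set.mem_insert_of_mem _ ⟨(j, k), rfl⟩)
            rw [aeval_def, eval_mnr hitr, hP] at h3
            exact h3
          apply hC Ω d hd _ (fun i => sy_hom _ i) hM Y
          · intro u hu h
            have := (hY' u hu).1
            rw [h] at this
            exact zero_ne_one this
          · intro u hu z hz c huz
            have h1 := (hY' u hu).1
            have h2 := (hY' z hz).1
            rw [huz, Pi.smul_apply, smul_eq_mul, h2, mul_one] at h1
            rw [huz, h1, one_smul]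
          · exact fun u hu => (hY' u hu).2
        · intro g hg
          rcases Set.mem_insert_iff.1 hg with rfl | ⟨jk, rfl⟩
          · rw [map_sub, aeval_X, map_one, sub_eq_zero]
            exact hx0
          · change aeval _ (mnr (sy v') b1 e1 jk.1 jk.2) = 0
            rw [aeval_def, eval_mnr hitr, hP]
            exact hmin jk.1 jk.2
      intro t
      cases t with
      | inl i => exact (hxalg i).restrictScalars (EE (Idx (N + 1) d × J))
      | inr j =>
        have h1 := congrFun hσ j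
        have h2 : y (Sum.inr j) = σ (ω j) := h1
        rw [h2]
        exact hintE _) (by
      intro hall
      apply hcon
      intro ε hε
      refine δ.mono (hall ε hε) ?_
      rintro w ⟨K, i1, i2, y, h1, h2⟩
      exact ⟨K, i1, i2, y, h1, h2, by rw [eval₂_one]; exact one_ne_zero⟩)
  haveI := hfd
  have hy' : y = Sum.elim (fun i => y (Sum.inl i)) (fun j => y (Sum.inr j)) := by
    funext t
    cases t <;> rfl
  rw [hy'] at hy
  obtain ⟨⟨σ, hσ⟩, h1, h2⟩ := (go_iff hitr htab ω b1 e1 i0 _ _ _).1 hy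
  rw [hσ] at h2
  have hM := monIn_cv ω hcn hdiv hMac L σ
  have hx0 : (fun i => y (Sum.inl i)) ≠ 0 := by
    intro h
    have h3 : (fun i => y (Sum.inl i)) i0 = 1 := h1
    rw [h] at h3
    exact zero_ne_one h3
  obtain ⟨c, hc, h3⟩ := prop_of_minors _ _ (iter_ne_zero _ hM _ hx0 _)
    (iter_ne_zero _ hM _ hx0 _) h2
  exact hloc L hdeg σ _ hx0 (fun k => iter_ne_zero _ hM _ hx0 k)
    ⟨b1, b1 + e1, by omega, c, hc, h3⟩

/-- 100% of the systems have no preperiodic point over the number fields `K` containing `O` of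
degree less than `d` over the field of fractions of `O` -/
theorem no_low (hitr : S_itr) (heul : S_eul) (htab : S_tab) (hnorm : S_norm)
    (hfin : S_fin) (hc1 : S_c1) (hcnt : TaskCnt) (htype : S_type3)
    (hspl : S_spl) (hlmk : S_lmk) (hent : S_ent) (hcon : S_con)
    (hnof : S_nof) {N d : ℕ} (hN : 1 ≤ N) (hd : 2 ≤ d) (O J : Type) [CommRing O] [IsDomain O]
    [Fintype J] (ω : Module.Basis J ℤ O) (δ : Den (Idx (N + 1) d × J)) (hdens : δ.HDens) :
    δ.D0 {w : Idx (N + 1) d × J → ℤ | ¬ ((∀ (K : Type) [Field K] [CharZero K] (σ : O →+* K)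
      (x : Fin (N + 1) → K), pt (sw ω σ w) x = 0 → x = 0) ∧
      ∀ (K : Type) [Field K] [NumberField K] (σ : O →+* K),
      Module.finrank ℚ K < d * Fintype.card J → ∀ x : Fin (N + 1) → K, x ≠ 0 →
      ¬ ∃ m n : ℕ, m < n ∧ ∃ c : K, c ≠ 0 ∧
        (pt (sw ω σ w))^[n] x = c • (pt (sw ω σ w))^[m] x)} := by
  classical
  obtain ⟨c₁, s, ⟨v₀, hv₀⟩, hMac⟩ := hc1 (N + 1) d (by omega)
  have hc₁ : c₁ ≠ 0 := by
    intro h
    rw [h, map_zero] at hv₀
    exact zero_ne_one hv₀
  obtain ⟨n₁, hn₁, hdiv₁⟩ := hnorm O J (Idx (N + 1) d) ω c₁ hc₁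
  obtain ⟨b, e, he, hbe⟩ := htype N d (d * Fintype.card J - 1) hd
  have hJ : 0 < d * Fintype.card J := by
    have h1 : Nonempty J := ω.index_nonempty
    have h2 : 0 < Fintype.card J := Fintype.card_pos
    positivity
  have hbad := Den.D0.biUnion (δ := δ) (Finset.univ : Finset (Fin (N + 1))) _ fun i0 _ =>
    bad0 (D := d * Fintype.card J - 1) hitr htab hfin hcnt hd δ ω c₁ n₁ hn₁ hdiv₁ hMac b e he
      (fun L _ _ _ hL σ x hx hit hpre => no_pre heul hspl hlmk hent hcon hnof hN hd O J ω L
        (by omega) σ x hx hit hpre) i0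
  have htot := ((Den.D0.zero (δ := δ) n₁ hn₁).union (hbe O J ω δ hdens)).union hbad
  intro ε hε
  apply δ.mono (htot ε hε)
  intro w hw
  by_contra hnot
  simp only [Set.mem_union, not_or] at hnot
  obtain ⟨⟨hw1, hw2⟩, hw3⟩ := hnot
  have hw1' : eval w n₁ ≠ 0 := hw1
  have hw2' := not_not.1 hw2
  have hMon : ∀ (K : Type) [Field K] [CharZero K] (σ : O →+* K), MonIn s (sw ω σ w) := by
    intro K _ _ σ
    apply hMac
    have h1 := hdiv₁ K σ (fun q => (w q : K))
    rw [aeval_cast] at h1
    exact (ne_zero_of_dvd_ne_zero (Int.cast_ne_zero.2 hw1') h1).isUnit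
  apply hw
  refine ⟨fun K _ _ σ x hx => no_zero _ (hMon K σ) x fun i => congrFun hx i, ?_⟩
  rintro K _ _ σ hK x hx hpre
  have hM := hMon K σ
  obtain ⟨c, hc, hrel⟩ := hw2' K σ (by omega) x hx hpre
  obtain ⟨i0, hi0⟩ := Function.ne_iff.1 hx
  have hi0' : x i0 ≠ 0 := hi0
  set t : K := (x i0)⁻¹ with ht
  have ht0 : t ≠ 0 := inv_ne_zero hi0'
  set y : Fin (N + 1) → K := t • x with hy
  have hyit : ∀ m, (pt (sw ω σ w))^[m] y = t ^ d ^ m • (pt (sw ω σ w))^[m] x :=
    fun m => iter_smul _ (fun i => sy_hom _ i) heul t x m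
  have hev : ∀ q, ((Int.castRingHom K).comp (eval w)) (X q : MvPolynomial (Idx (N + 1) d × J) ℤ) =
      (w q : K) := by
    intro q
    simp
  have hsy : (sy (cv (fun j => σ (ω j)) fun q => ((Int.castRingHom K).comp (eval w))
      (X q : MvPolynomial (Idx (N + 1) d × J) ℤ))) = sw ω σ w := by
    simp only [hev]
    rfl
  apply hw3
  rw [Set.mem_iUnion₂]
  refine ⟨i0, Finset.mem_univ _, K, inferInstance, inferInstance,
    Sum.elim y (fun j => σ (ω j)), by omega, ?_⟩
  rw [go_iff hitr htab, hsy]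
  refine ⟨⟨σ, rfl⟩, ?_, ?_⟩
  · rw [hy, Pi.smul_apply, smul_eq_mul, ht]
    exact inv_mul_cancel₀ hi0'
  · apply minors_of_prop _ _ (t ^ d ^ (b + e) * c / t ^ d ^ b)
    rw [hyit, hyit]
    have hrel' : (pt (sw ω σ w))^[b + e] x = c • (pt (sw ω σ w))^[b] x := hrel
    rw [hrel', smul_smul, smul_smul]
    congr 1
    have : t ^ d ^ b ≠ 0 := pow_ne_zero _ ht0
    field_simp


theorem type3 : S_type3 :=
  typ2 Pool.Agent.W405.UB.main Pool.Agent.W32.UB.main W500.UB.Tab.main core W688.UB.Lmn2.main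
    (W505.UB.Lmg2.main W688.UB.Theta2.main W125.UB.FinT.tensor_main W21.UB.main)
    W305.UB.Norm.main W125.UB.FinT.fin_main W347.UB.C1.main
    (W74.UB.C2.main Pool.Agent.W405.UB.main Pool.Agent.W32.UB.main W230.UB.Cram.main W563.UB.Null.main W407.UB.main)
    (H294UB.taskCnt H294UB.taskFib)

/-- uniform boundedness for almost all systems with coefficients in an order -/
theorem final_order (N d D : ℕ) (hd : 2 ≤ d) : ∃ C : ℕ,
    ∀ (O J : Type) [CommRing O] [IsDomain O] [Fintype J] (ω : Module.Basis J ℤ O)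
      (δ : Den (Idx (N + 1) d × J)), δ.HDens →
      δ.D0 {w : Idx (N + 1) d × J → ℤ | ¬ BddO D C (Ph ω w)} :=
  bddO_of_type type3 W305.UB.Norm.main W347.UB.C1.main (H294UB.taskCnt H294UB.taskFib) N d D hd

/-- almost all systems over an order have no preperiodic points of small degree -/
theorem final_free (N d : ℕ) (hN : 1 ≤ N) (hd : 2 ≤ d) (O J : Type) [CommRing O] [IsDomain O]
    [Fintype J] (ω : Module.Basis J ℤ O) (δ : Den (Idx (N + 1) d × J)) (hdens : δ.HDens) :
    δ.D0 {w : Idx (N + 1) d × J → ℤ | ¬ FreeO (d * Fintype.card J) (Ph ω w)} := by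
  have h := no_low Pool.Agent.W405.UB.main Pool.Agent.W32.UB.main W500.UB.Tab.main W305.UB.Norm.main
    W125.UB.FinT.fin_main W347.UB.C1.main (H294UB.taskCnt H294UB.taskFib) type3 W930.ND.main
    (W131.ND.Lmk.main W688.UB.Theta2.main W125.UB.FinT.tensor_main W21.UB.main W305.UB.Norm.main)
    ent W902.ND.main W327.ND.main hN hd O J ω δ hdens
  intro ε hε
  refine δ.mono (h ε hε) ?_
  intro w hw hcon
  apply hw
  have hsy : ∀ (K : Type) [Field K] (σ : O →+* K),
      (fun i => map σ (Ph ω w i)) = sw ω σ w := by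
    intro K _ σ
    show (fun i => map σ (sy (cv ω fun q => (w q : O)) i)) = sw ω σ w
    rw [map_sy, sw]
    congr 1
    funext i
    simp [cv]
  refine ⟨?_, ?_⟩
  · intro K _ _ σ x hx
    rw [hsy K σ] at hx
    exact hcon.1 K σ x hx
  · intro K _ _ σ hK x hx
    have := hcon.2 K σ hK x hx
    rw [hsy K σ]
    exact this

end Pool.Agent.N938.TD
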