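import Pool.Agent.N938.TD.YTr
import Pool.Agent.Y706.HN6

set_option autoImplicit false
set_option linter.unusedSectionVars false

/-!
# Families of Hénon maps over a number field for abstract densities

Copies of `upper_members`, `lower_members`, `main6` of `Pool.Agent.Y706` (starting files) with the
density of boxes replaced by an abstract density.
-/

namespace Pool.Agent.N938.TD.Y

open MvPolynomial H294UB
open Pool.Agent.W275.UB hiding D0 UD Gen bad1 typ2 bddO_of_type
open Pool.Agent.W554.UB NumberField Pool.Agent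
open Pool.Agent.Y706 hiding evk_inj gen_ne_zero faithful isAlg_sum isAlg_trace rac_w algF mem_algF Wk_alg
  algF_trans indep_W indep_V rac rho_inj psiF psiF_algebraMap mem_range psiF_mem psiF_closed
  generic_ptsB transferB paramB D0_B psiT psiF_kap psiT_apply psiT_closed
  upper_members lower_members main6

section

variable {k : Type} [Field k] [NumberField k] {J : Type} [Fintype J] {m : ℕ}
  (ω : Module.Basis J ℤ (𝓞 k)) {U : Ultrafilter (Fin (m + 1) × J → ℤ)}

/-- the field of rational functions in the ultrapower -/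
noncomputable def psiT (hU : Gd U) : FractionRing (MvPolynomial (Fin m) k) →+* UP U k :=
  (psiF ω hU).comp (TM k m)

lemma psiF_kap (hU : Gd U) (c : k) :
    psiF ω hU (kap c) = algebraMap k (UP U k) c := by
  have h1 : (psiF ω hU).comp (kap (k := k) (ι := Fin (m + 1))) =
      algebraMap k (UP U k) := by
    apply IsLocalization.ringHom_ext (nonZeroDivisors (𝓞 k))
    apply RingHom.ext
    intro x
    rw [RingHom.comp_apply, RingHom.comp_apply, RingHom.comp_apply, ← kap_spec, psiF_algebraMap,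
      rho_C]
  exact congrArg (fun f => f c) h1

lemma psiT_apply (hU : Gd U) (r : MvPolynomial (Fin m) k) :
    psiT ω hU (algebraMap _ _ r) = up U k fun w => MvPolynomial.eval (tp ω w) r := by
  have h1 : ((psiF ω hU).comp
      ((MvPolynomial.aeval (yy (xx k m)) : MvPolynomial (Fin m) k →ₐ[k] KK k (Fin (m + 1))) :
        MvPolynomial (Fin m) k →+* KK k (Fin (m + 1)))) =
      (up U k).comp (RingHom.pi fun w => MvPolynomial.eval (tp ω w)) := by
    apply MvPolynomial.ringHom_ext
    · intro c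
      have h2 : (MvPolynomial.aeval (yy (xx k m))) (MvPolynomial.C c : MvPolynomial (Fin m) k) =
          kap c := MvPolynomial.aeval_C _ _
      show psiF ω hU (MvPolynomial.aeval (yy (xx k m)) (MvPolynomial.C c)) =
        up U k fun w => MvPolynomial.eval (tp ω w) (MvPolynomial.C c)
      rw [h2, psiF_kap, algebraMap_up]
      congr 1
      funext w
      rw [MvPolynomial.eval_C]
    · intro l
      show psiF ω hU (MvPolynomial.aeval (yy (xx k m)) (MvPolynomial.X l)) =
        up U k fun w => MvPolynomial.eval (tp ω w) (MvPolynomial.X l)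
      rw [MvPolynomial.aeval_X, yy, map_div₀, xx, xx, psiF_algebraMap, psiF_algebraMap, rho_apply,
        rho_apply, up_div]
      congr 1
      funext w
      rw [MvPolynomial.eval_X, MvPolynomial.eval_X, MvPolynomial.eval_X]
      rfl
  rw [psiT, RingHom.comp_apply, TM_apply]
  exact congrArg (fun f => f r) h1

lemma psiT_closed (hU : Gd U) (z : UP U k)
    (h : ∃ g : Polynomial (FractionRing (MvPolynomial (Fin m) k)), g ≠ 0 ∧
      g.eval₂ (psiT ω hU) z = 0) : ∃ y, psiT ω hU y = z := by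
  obtain ⟨g, hg, hgz⟩ := h
  obtain ⟨y, hy⟩ := psiF_closed ω hU z ⟨g.map (TM k m),
    (Polynomial.map_ne_zero_iff (TM k m).injective).2 hg, by
      rw [Polynomial.eval₂_map]
      exact hgz⟩
  obtain ⟨y', hy'⟩ := TM_cl y ⟨g, hg, by
    apply (psiF ω hU).injective
    rw [Polynomial.hom_eval₂, hy, map_zero]
    exact hgz⟩
  exact ⟨y', by rw [psiT, RingHom.comp_apply, hy', hy]⟩

end

section

variable {k : Type} [Field k] [NumberField k] {J : Type} [Fintype J] {m : ℕ}
  (ω : Module.Basis J ℤ (𝓞 k)) (δ : Den (Fin (m + 1) × J))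

section thms

variable {d B : ℕ} (hd : 2 ≤ d) (q : Hq d → MvPolynomial (Fin m) k) (hq0 : q none ≠ 0)
    (hq1 : q (some none) ≠ 0) (hq2 : q (some (some (Fin.last d))) ≠ 0)

include hd hq0 hq1 hq2 in
/-- 100% of the members do not have more points -/
theorem upper_members (kb : Type) [Field kb] [Algebra k kb] {C : ℕ}
    (hgen : FewH (AlgebraicClosure (FractionRing (MvPolynomial (Fin m) k))) B C (gq q)) :
    δ.D0 {w : Fin (m + 1) × J → ℤ | ¬ (vec ω w 0 ≠ 0 ∧ eval (tp ω w) (q none) ≠ 0 ∧
      eval (tp ω w) (q (some none)) ≠ 0 ∧ eval (tp ω w) (q (some (some (Fin.last d)))) ≠ 0 ∧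
      FewH kb B C fun i => eval (tp ω w) (q i))} := by
  classical
  have hcz : CharZero (FractionRing (MvPolynomial (Fin m) k)) :=
    charZero_of_injective_algebraMap (R := k) (algebraMap k _).injective
  intro ε hε
  by_contra hcon
  set Bad : Set (Fin (m + 1) × J → ℤ) := {w | ¬ (vec ω w 0 ≠ 0 ∧ eval (tp ω w) (q none) ≠ 0 ∧
      eval (tp ω w) (q (some none)) ≠ 0 ∧ eval (tp ω w) (q (some (some (Fin.last d)))) ≠ 0 ∧
      FewH kb B C fun i => eval (tp ω w) (q i))} with hBad
  obtain ⟨n, hn, hdata⟩ := integral_data ω q hq0 hq1 hq2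
  obtain ⟨P₀, hP₀⟩ := δ.densp n hn (ε / 4) (by positivity)
  obtain ⟨p, hp, hpP⟩ := exists_prime_ge P₀
  obtain ⟨p', hp', hpP'⟩ := exists_prime_ge (max P₀ (p + 1))
  have hpp : p ≠ p' := by
    have := (le_max_right P₀ (p + 1)).trans hpP'
    omega
  obtain ⟨Wp, hWp, hRp⟩ := exists_perH p (Module.finrank ℚ k * B) hp
  obtain ⟨Wp', hWp', hRp'⟩ := exists_perH p' (Module.finrank ℚ k * B) hp'
  set Bad' : Set (Fin (m + 1) × J → ℤ) :=
    {w | w ∈ Bad ∧ ¬ (p : ℤ) ∣ eval w n ∧ ¬ (p' : ℤ) ∣ eval w n} with hBad'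
  have hnot : ¬ δ.D0 Bad' := by
    intro h0
    apply hcon
    have h1 := δ.union (δ.union (h0 (ε / 2) (by positivity)) (hP₀ p hp hpP))
      (hP₀ p' hp' ((le_max_left _ _).trans hpP'))
    rw [show ε / 2 + ε / 4 + ε / 4 = ε by ring] at h1
    refine δ.mono h1 ?_
    intro w hw
    by_cases h2 : (p : ℤ) ∣ eval w n
    · exact Or.inl (Or.inr h2)
    · by_cases h3 : (p' : ℤ) ∣ eval w n
      · exact Or.inr h3
      · exact Or.inl (Or.inl ⟨hw, h2, h3⟩)
  obtain ⟨U, hU, hUB⟩ := δ.exu Bad' hnot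
  have he : 0 < Wp * Wp' := Nat.mul_pos hWp hWp'
  have key : ∀ w ∈ Bad', ∃ P : Fin (C + 1) → kb × kb, (∀ l l', P l = P l' → l = l') ∧
      (∀ l, (hnm fun i => algebraMap k kb (eval (tp ω w) (q i)))^[Wp * Wp'] (P l) = P l) ∧
      ∀ l, PB k B (P l) := by
    rintro w ⟨hw, hw1, hw2⟩
    have hw0 : eval w n ≠ 0 := by
      intro h0
      rw [h0] at hw1
      exact hw1 (dvd_zero _)
    obtain ⟨g1, g2, g3, g4, a, c, hc, ha, hdvd⟩ := hdata w hw0
    have hfew : ¬ FewH kb B C fun i => eval (tp ω w) (q i) := fun h => hw ⟨g1, g2, g3, g4, h⟩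
    unfold FewH at hfew
    push Not at hfew
    obtain ⟨X, hXper, hXd, hXc⟩ := hfew
    obtain ⟨Y, hYX, hYc⟩ := Finset.exists_subset_card_eq (Nat.succ_le_of_lt hXc)
    let E := Y.equivFinOfCardEq hYc
    refine ⟨fun l => (E.symm l).1, fun l l' h => ?_, fun l => ?_, fun l => ?_⟩
    · exact E.symm.injective (Subtype.ext h)
    · obtain ⟨t, ht, hper⟩ := hXper _ (hYX (E.symm l).2)
      exact per_member hd hp hp' hpp hRp hRp' kb (fun i => eval (tp ω w) (q i)) a c hc ha _ hdvd
        hw1 hw2 _ (hXd _ (hYX (E.symm l).2)) t ht hper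
    · exact hXd _ (hYX (E.symm l).2)
  choose! P hP using key
  refine upH (psiT ω (Den.gd hU)) (psiT_closed ω (Den.gd hU)) hd he (gq q) (gq_ne hq2) (gq_ne hq0)
    (fun i w => eval (tp ω w) (q i)) (fun i => psiT_apply ω (Den.gd hU) (q i)) P ?_ hgen
  filter_upwards [hUB] with w hw
  exact hP w hw

/-- 100% of the members do not have less points -/
theorem lower_members (kb : Type) [Field kb] [Algebra k kb] [IsAlgClosed kb] {C : ℕ}
    (hgen : ¬ FewH (AlgebraicClosure (FractionRing (MvPolynomial (Fin m) k))) B C (gq q)) :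
    δ.D0 {w : Fin (m + 1) × J → ℤ | FewH kb B C fun i => eval (tp ω w) (q i)} := by
  classical
  have hcz : CharZero (FractionRing (MvPolynomial (Fin m) k)) :=
    charZero_of_injective_algebraMap (R := k) (algebraMap k _).injective
  by_contra hcon
  obtain ⟨U, hU, hUG⟩ := δ.exu _ hcon
  obtain ⟨τ, hτ⟩ := exists_tauU (kb := kb) (psiT ω (Den.gd hU))
  have h1 := lowH (psiT ω (Den.gd hU)) τ hτ (qw := fun i w => eval (tp ω w) (q i))
    (fun i => psiT_apply ω (Den.gd hU) (q i)) hgen
  have h2 : ∀ᶠ w in (U : Filter (Fin (m + 1) × J → ℤ)),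
      FewH kb B C fun i => eval (tp ω w) (q i) := hUG
  obtain ⟨w, hw1, hw2⟩ := (h1.and h2).exists
  exact hw1 hw2

end thms

end

/-- **The number of the periodic points of degree at most `B` of almost all members of a family of
Hénon maps is equal to that of the generic member, which is finite.** -/
theorem main6 (k : Type) [Field k] [NumberField k] (d : ℕ) (hd : 2 ≤ d) (m : ℕ)
    (F : Polynomial (MvPolynomial (Fin m) k)) (δ μ : MvPolynomial (Fin m) k)
    (hF : HenD d F δ μ) (B : ℕ) :
    (perP (F.map (algebraMap (MvPolynomial (Fin m) k) (FractionRing (MvPolynomial (Fin m) k))))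
      (algebraMap _ _ δ) (algebraMap _ _ μ) B).Finite ∧
    ∀ (J : Type) [Fintype J] (ω : Module.Basis J ℤ (𝓞 k)) (D : Den (Fin (m + 1) × J)),
      D.D0 {w : Fin (m + 1) × J → ℤ | ¬ (vec ω w 0 ≠ 0 ∧
          HenD d (F.map (MvPolynomial.eval fun l : Fin m =>
            algebraMap (𝓞 k) k (vec ω w l.succ) / algebraMap (𝓞 k) k (vec ω w 0)))
            (MvPolynomial.eval (fun l : Fin m =>
            algebraMap (𝓞 k) k (vec ω w l.succ) / algebraMap (𝓞 k) k (vec ω w 0)) δ)
            (MvPolynomial.eval (fun l : Fin m =>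
            algebraMap (𝓞 k) k (vec ω w l.succ) / algebraMap (𝓞 k) k (vec ω w 0)) μ) ∧
          (perP (F.map (MvPolynomial.eval fun l : Fin m =>
            algebraMap (𝓞 k) k (vec ω w l.succ) / algebraMap (𝓞 k) k (vec ω w 0)))
            (MvPolynomial.eval (fun l : Fin m =>
            algebraMap (𝓞 k) k (vec ω w l.succ) / algebraMap (𝓞 k) k (vec ω w 0)) δ)
            (MvPolynomial.eval (fun l : Fin m =>
            algebraMap (𝓞 k) k (vec ω w l.succ) / algebraMap (𝓞 k) k (vec ω w 0)) μ) B).encard =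
          (perP (F.map (algebraMap (MvPolynomial (Fin m) k)
            (FractionRing (MvPolynomial (Fin m) k))))
            (algebraMap _ _ δ) (algebraMap _ _ μ) B).encard)} := by
  classical
  obtain ⟨hF1, hF2, hF3⟩ := hF
  have hF0 : F.coeff d ≠ 0 := by
    have h1 : F ≠ 0 := by
      rintro rfl
      rw [Polynomial.natDegree_zero] at hF1
      omega
    rw [← hF1]
    exact Polynomial.leadingCoeff_ne_zero.2 h1
  set q : Hq d → MvPolynomial (Fin m) k := dq d F δ μ with hq
  have hq0 : q none ≠ 0 := hF3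
  have hq1 : q (some none) ≠ 0 := hF2
  have hq2 : q (some (some (Fin.last d))) ≠ 0 := hF0
  set φ := algebraMap (MvPolynomial (Fin m) k) (FractionRing (MvPolynomial (Fin m) k)) with hφ
  have hφi : Function.Injective φ := IsFractionRing.injective _ _
  have hgq : gq q = dq d (F.map φ) (φ δ) (φ μ) := by
    funext i
    rw [dq_map]
    rfl
  have hFg : (F.map φ).natDegree = d := by
    rw [Polynomial.natDegree_map_eq_of_injective hφi, hF1]
  obtain ⟨C, hC⟩ := generic_finite (NumberField.RingOfIntegers.basis k) hd q hq0 hq1 hq2 B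
  rw [hgq] at hC
  have hle := (fewH_iff hFg (φ δ) (φ μ) B C).1 hC
  have hfin : (perP (F.map φ) (φ δ) (φ μ) B).Finite :=
    Set.encard_lt_top_iff.1 (hle.trans_lt (ENat.natCast_lt_top C))
  obtain ⟨n, hn⟩ : ∃ n : ℕ, (perP (F.map φ) (φ δ) (φ μ) B).encard = (n : ℕ∞) :=
    ⟨_, hfin.encard_eq_coe_toFinset_card⟩
  refine ⟨hfin, ?_⟩
  intro J _ ω D
  have hup : FewH (AlgebraicClosure (FractionRing (MvPolynomial (Fin m) k))) B n (gq q) := by
    rw [hgq]
    exact (fewH_iff hFg (φ δ) (φ μ) B n).2 hn.le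
  have h3 := upper_members ω D hd q hq0 hq1 hq2 (AlgebraicClosure k) hup
  have h4 : D.D0 {w : Fin (m + 1) × J → ℤ | 1 ≤ n ∧
      FewH (AlgebraicClosure k) B (n - 1) (fun i => eval (tp ω w) (q i))} := by
    by_cases hn1 : 1 ≤ n
    · have h5 : ¬ FewH (AlgebraicClosure (FractionRing (MvPolynomial (Fin m) k))) B (n - 1)
          (gq q) := by
        intro h6
        rw [hgq] at h6
        have h7 := (fewH_iff hFg (φ δ) (φ μ) B (n - 1)).1 h6
        rw [hn] at h7
        have h8 : n ≤ n - 1 := by exact_mod_cast h7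
        omega
      have h6 := lower_members ω D q (AlgebraicClosure k) h5
      intro ε hε
      exact D.mono (h6 ε hε) fun w hw => hw.2
    · intro ε hε
      exact D.mono (Den.D0.empty (δ := D) ε hε) fun w hw => absurd hw.1 hn1
  intro ε hε
  refine D.mono ((h3.union h4) ε hε) ?_
  intro w hw
  by_contra hcon
  rw [Set.mem_union, not_or] at hcon
  obtain ⟨hcon1, hcon2⟩ := hcon
  apply hw
  have hcon1' : vec ω w 0 ≠ 0 ∧ eval (tp ω w) (q none) ≠ 0 ∧
      eval (tp ω w) (q (some none)) ≠ 0 ∧ eval (tp ω w) (q (some (some (Fin.last d)))) ≠ 0 ∧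
      FewH (AlgebraicClosure k) B n (fun i => eval (tp ω w) (q i)) := by
    by_contra h5
    exact hcon1 h5
  obtain ⟨g1, g2, g3, g4, g5⟩ := hcon1'
  have g6 : ¬ (1 ≤ n ∧ FewH (AlgebraicClosure k) B (n - 1) (fun i => eval (tp ω w) (q i))) := hcon2
  have hFs : (F.map (eval (tp ω w))).natDegree = d := by
    apply le_antisymm
    · exact Polynomial.natDegree_map_le.trans hF1.le
    · apply Polynomial.le_natDegree_of_ne_zero
      rw [Polynomial.coeff_map]
      exact g4
  have hsq : (fun i => eval (tp ω w) (q i)) =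
      dq d (F.map (eval (tp ω w))) (eval (tp ω w) δ) (eval (tp ω w) μ) := by
    funext i
    rw [dq_map]
  rw [hsq] at g5 g6
  refine ⟨g1, ⟨hFs, g3, g2⟩, ?_⟩
  show (perP (F.map (eval (tp ω w))) (eval (tp ω w) δ) (eval (tp ω w) μ) B).encard = _
  rw [hn]
  apply le_antisymm
  · exact (fewH_iff hFs _ _ B n).1 g5
  · by_contra hlt
    push Not at hlt
    apply g6
    have hn1 : 1 ≤ n := by
      by_contra h0
      have h1 : n = 0 := by omega
      rw [h1] at hlt
      simp at hlt
    refine ⟨hn1, (fewH_iff hFs _ _ B (n - 1)).2 ?_⟩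
    have h5 : ((n - 1 : ℕ) : ℕ∞) + 1 = (n : ℕ∞) := by
      norm_cast
      omega
    rw [← h5] at hlt
    exact Order.le_of_lt_add_one hlt

end Pool.Agent.N938.TD.Y
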