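import Pool.Agent.N938.TD.OneSet
import Pool.Agent.N938.TD.YHen

/-!
# All families of Hénon maps over all number fields (helper938)
-/

set_option autoImplicit false
set_option linter.unusedSectionVars false

namespace Pool.Agent.N938.TD

open NumberField
open Pool.Agent.Y706 (HenD perP vec)

/-- a family of Hénon maps over a number field in `ℂ`, with an integral basis -/
structure Fam6 where
  k : Subfield ℂ
  hk : NumberField k
  r : ℕ
  d : ℕ
  m : ℕ
  B : ℕ
  ω : Module.Basis (Fin r) ℤ (𝓞 k)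
  G : Polynomial (MvPolynomial (Fin m) k)
  δ : MvPolynomial (Fin m) k
  μ : MvPolynomial (Fin m) k
  hd : 2 ≤ d
  hG : HenD d G δ μ

theorem fam6_countable : Countable Fam6 := by
  have h1 : Countable {k : Subfield ℂ // NumberField k} := nf_countable
  have h2 : ∀ k : {k : Subfield ℂ // NumberField k}, Countable k.1 := fun k => by
    have := k.2
    exact field_countable k.1
  have h3 : ∀ (k : {k : Subfield ℂ // NumberField k}) (r : ℕ),
      Countable (Module.Basis (Fin r) ℤ (𝓞 k.1)) := fun k r => basis_countable k.1 r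
  have h4 : ∀ (k : {k : Subfield ℂ // NumberField k}) (m : ℕ),
      Countable (MvPolynomial (Fin m) k.1) := fun k m => mv_countable m k.1
  have h5 : ∀ (k : {k : Subfield ℂ // NumberField k}) (m : ℕ),
      Countable (Polynomial (MvPolynomial (Fin m) k.1)) := fun k m => poly_countable _
  refine Function.Injective.countable (β := Σ (k : {k : Subfield ℂ // NumberField k}) (r : ℕ)
    (_ : ℕ) (m : ℕ) (_ : ℕ), Module.Basis (Fin r) ℤ (𝓞 k.1) ×
      Polynomial (MvPolynomial (Fin m) k.1) × MvPolynomial (Fin m) k.1 × MvPolynomial (Fin m) k.1)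
    (f := fun f => ⟨⟨f.k, f.hk⟩, f.r, f.d, f.m, f.B, f.ω, f.G, f.δ, f.μ⟩) ?_
  rintro ⟨k, hk, r, d, m, B, ω, G, δ, μ, hd, hG⟩ ⟨k', hk', r', d', m', B', ω', G', δ', μ', hd', hG'⟩ h
  cases h
  rfl

/-- the vectors at which the member of the family is bad -/
def bad6 (f : Fam6) : Set (Fin (f.m + 1) × Fin f.r → ℤ) :=
  {w | ¬ (vec f.ω w 0 ≠ 0 ∧
    HenD f.d (f.G.map (MvPolynomial.eval fun l : Fin f.m =>
      algebraMap (𝓞 f.k) f.k (vec f.ω w l.succ) / algebraMap (𝓞 f.k) f.k (vec f.ω w 0)))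
      (MvPolynomial.eval (fun l : Fin f.m =>
      algebraMap (𝓞 f.k) f.k (vec f.ω w l.succ) / algebraMap (𝓞 f.k) f.k (vec f.ω w 0)) f.δ)
      (MvPolynomial.eval (fun l : Fin f.m =>
      algebraMap (𝓞 f.k) f.k (vec f.ω w l.succ) / algebraMap (𝓞 f.k) f.k (vec f.ω w 0)) f.μ) ∧
    (perP (f.G.map (MvPolynomial.eval fun l : Fin f.m =>
      algebraMap (𝓞 f.k) f.k (vec f.ω w l.succ) / algebraMap (𝓞 f.k) f.k (vec f.ω w 0)))
      (MvPolynomial.eval (fun l : Fin f.m =>
      algebraMap (𝓞 f.k) f.k (vec f.ω w l.succ) / algebraMap (𝓞 f.k) f.k (vec f.ω w 0)) f.δ)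
      (MvPolynomial.eval (fun l : Fin f.m =>
      algebraMap (𝓞 f.k) f.k (vec f.ω w l.succ) / algebraMap (𝓞 f.k) f.k (vec f.ω w 0)) f.μ)
      f.B).encard =
    (perP (f.G.map (algebraMap (MvPolynomial (Fin f.m) f.k)
      (FractionRing (MvPolynomial (Fin f.m) f.k))))
      (algebraMap _ _ f.δ) (algebraMap _ _ f.μ) f.B).encard)}

theorem bad6_D0 (f : Fam6) (D : Den (Fin (f.m + 1) × Fin f.r)) : D.D0 (bad6 f) := by
  have := f.hk
  exact (Y.main6 f.k f.d f.hd f.m f.G f.δ f.μ f.hG f.B).2 (Fin f.r) f.ω D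

theorem vec_eq' {k : Type} [Field k] [NumberField k] {r : ℕ} (ω : Module.Basis (Fin r) ℤ (𝓞 k))
    {m : ℕ} (w : Fin (m + 1) × Fin r → ℤ) :
    vec ω w = fun l => ∑ j : Fin r, w (l, j) • ω j := by
  funext l
  unfold Pool.Agent.Y706.vec Pool.Agent.W275.UB.cv
  refine Finset.sum_congr rfl fun j _ => ?_
  rw [zsmul_eq_mul, mul_comm]

/-- **All families of Hénon maps over all number fields along an equidistributed array.** -/
theorem all6 {x : ℕ → ℕ → ℕ → ℤ} {S₁ S₂ : ℕ → Finset ℕ}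
    (hS₁ : ∀ N, S₁ N ⊆ Finset.Ioc N (2 * N)) (hS₂ : ∀ N, S₂ N ⊆ Finset.Ioc N (2 * N))
    (h₁ : EquiA S₁ x) (h₂ : EquiA S₂ x) :
    ∃ E : Set ℕ, Pool.Agent.N666.TM.NullIn S₁ E ∧ Pool.Agent.N666.TM.NullIn S₂ E ∧
      ∀ (k : Subfield ℂ) [NumberField k] (r : ℕ) (ω : Module.Basis (Fin r) ℤ (𝓞 k)) (d : ℕ),
        2 ≤ d → ∀ (m : ℕ) (G : Polynomial (MvPolynomial (Fin m) k)) (δ μ : MvPolynomial (Fin m) k),
        HenD d G δ μ → ∀ B : ℕ,
          (perP (G.map (algebraMap (MvPolynomial (Fin m) k)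
            (FractionRing (MvPolynomial (Fin m) k)))) (algebraMap _ _ δ) (algebraMap _ _ μ)
            B).Finite ∧
          {t : ℕ | t ∉ E ∧ ∀ v : Fin (m + 1) → 𝓞 k, (v = fun l : Fin (m + 1) => ∑ j : Fin r, x l j t • ω j) →
            ¬ (v 0 ≠ 0 ∧
              HenD d (G.map (MvPolynomial.eval fun l : Fin m =>
                algebraMap (𝓞 k) k (v l.succ) / algebraMap (𝓞 k) k (v 0)))
                (MvPolynomial.eval (fun l : Fin m =>
                algebraMap (𝓞 k) k (v l.succ) / algebraMap (𝓞 k) k (v 0)) δ)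
                (MvPolynomial.eval (fun l : Fin m =>
                algebraMap (𝓞 k) k (v l.succ) / algebraMap (𝓞 k) k (v 0)) μ) ∧
              (perP (G.map (MvPolynomial.eval fun l : Fin m =>
                algebraMap (𝓞 k) k (v l.succ) / algebraMap (𝓞 k) k (v 0)))
                (MvPolynomial.eval (fun l : Fin m =>
                algebraMap (𝓞 k) k (v l.succ) / algebraMap (𝓞 k) k (v 0)) δ)
                (MvPolynomial.eval (fun l : Fin m =>
                algebraMap (𝓞 k) k (v l.succ) / algebraMap (𝓞 k) k (v 0)) μ) B).encard =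
              (perP (G.map (algebraMap (MvPolynomial (Fin m) k)
                (FractionRing (MvPolynomial (Fin m) k))))
                (algebraMap _ _ δ) (algebraMap _ _ μ) B).encard)}.Finite := by
  have := fam6_countable
  obtain ⟨E, h1, h2, h3⟩ := one_set hS₁ hS₂ h₁ h₂ (I := Fam6) (fun f => f.r) (fun f => f.m)
    bad6 bad6_D0
  refine ⟨E, h1, h2, ?_⟩
  intro k hk r ω d hd m G δ μ hG B
  refine ⟨(Y.main6 k d hd m G δ μ hG B).1, ?_⟩
  refine (h3 ⟨k, hk, r, d, m, B, ω, G, δ, μ, hd, hG⟩).subset ?_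
  rintro t ⟨htE, ht⟩
  refine ⟨htE, ?_⟩
  exact ht (vec ω fun q : Fin (m + 1) × Fin r => x q.1 q.2 t) (vec_eq' ω _)

end Pool.Agent.N938.TD
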