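import Mathlib

/-!
# There are countably many families over number fields (helper938)
-/

set_option autoImplicit false
set_option linter.unusedSectionVars false

namespace Pool.Agent.N938.TD

open NumberField

theorem mv_countable (n : ℕ) (R : Type) [CommRing R] [Countable R] :
    Countable (MvPolynomial (Fin n) R) := by
  rw [← Cardinal.mk_le_aleph0_iff]
  refine (MvPolynomial.cardinalMk_le_max_lift (σ := Fin n) (R := R)).trans ?_
  simp

theorem poly_countable (R : Type) [CommRing R] [Countable R] : Countable (Polynomial R) := by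
  rw [← Cardinal.mk_le_aleph0_iff]
  refine Polynomial.cardinalMk_le_max.trans ?_
  simp

theorem nf_closure (k : Subfield ℂ) [NumberField k] :
    ∃ α : ℂ, IsAlgebraic ℚ α ∧ k = Subfield.closure {α} := by
  obtain ⟨α, hα⟩ := Field.exists_primitive_element ℚ k
  refine ⟨α, ?_, le_antisymm ?_ ?_⟩
  · have h1 : IsAlgebraic ℚ α := Algebra.IsAlgebraic.isAlgebraic α
    exact (isAlgebraic_algHom_iff (RingHom.toRatAlgHom k.subtype) k.subtype.injective).2 h1
  · intro x hx
    obtain ⟨y, hy⟩ : ∃ y : k, (y : ℂ) = x := ⟨⟨x, hx⟩, rfl⟩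
    rw [← hy]
    have h1 : y ∈ IntermediateField.adjoin ℚ {α} := by
      rw [hα]
      trivial
    clear hy
    induction h1 using IntermediateField.adjoin_induction with
    | mem y hy =>
      rw [Set.mem_singleton_iff] at hy
      rw [hy]
      exact Subfield.subset_closure rfl
    | algebraMap q =>
      have : ((algebraMap ℚ k q : k) : ℂ) = (q : ℂ) := by simp
      rw [this]
      exact SubfieldClass.ratCast_mem _ q
    | add y z _ _ hy hz => exact add_mem hy hz
    | inv y _ hy => exact inv_mem hy
    | mul y z _ _ hy hz => exact mul_mem hy hz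
  · rw [Subfield.closure_le]
    intro x hx
    rw [Set.mem_singleton_iff] at hx
    rw [hx]
    exact α.2

theorem nf_countable : Countable {k : Subfield ℂ // NumberField k} := by
  classical
  have hA : Countable {x : ℂ // IsAlgebraic ℚ x} := (Algebraic.countable ℚ ℂ).to_subtype
  have h : ∀ k : {k : Subfield ℂ // NumberField k}, ∃ α : {x : ℂ // IsAlgebraic ℚ x},
      k.1 = Subfield.closure {(α : ℂ)} := by
    rintro ⟨k, hk⟩
    obtain ⟨α, h1, h2⟩ := nf_closure k
    exact ⟨⟨α, h1⟩, h2⟩
  choose f hf using h
  refine Function.Injective.countable (f := f) ?_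
  intro k k' hkk
  apply Subtype.ext
  rw [hf k, hf k', hkk]

theorem field_countable (k : Subfield ℂ) [NumberField k] : Countable k := by
  have hA : Countable {x : ℂ // IsAlgebraic ℚ x} := (Algebraic.countable ℚ ℂ).to_subtype
  refine Function.Injective.countable (f := fun x : k => (⟨(x : ℂ), ?_⟩ : {x : ℂ // IsAlgebraic ℚ x})) ?_
  · have h1 : IsAlgebraic ℚ x := Algebra.IsAlgebraic.isAlgebraic x
    exact (isAlgebraic_algHom_iff (RingHom.toRatAlgHom k.subtype) k.subtype.injective).2 h1
  · intro x y h
    exact Subtype.ext (congrArg (fun z : {x : ℂ // IsAlgebraic ℚ x} => (z : ℂ)) h)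

theorem basis_countable (k : Type) [Field k] [Countable k] (r : ℕ) :
    Countable (Module.Basis (Fin r) ℤ (𝓞 k)) := by
  have h1 : Countable (𝓞 k) :=
    Function.Injective.countable (f := fun x : 𝓞 k => (x : k)) RingOfIntegers.coe_injective
  refine Function.Injective.countable (f := fun ω : Module.Basis (Fin r) ℤ (𝓞 k) => (ω : Fin r → 𝓞 k)) ?_
  intro ω ω' h
  exact DFunLike.coe_injective h

end Pool.Agent.N938.TD
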