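import Mathlib
import Pool.Agent.W275.UB.Den

set_option autoImplicit false

/-!
# Abstract densities of sets of integer vectors

`Den ι` is a notion `UD ε S` (the upper density of `S` is at most `ε`) for sets of vectors `ι → ℤ`
for which polynomials are rarely divisible by a large prime `p` and for which Hilbert's irreducibility
theorem holds (`HDens`: polynomials are rarely divisible by `p ^ (V + 1)`). The transfer to the generic point of `Pool.Agent.W275.UB` (starting files)
works for every such notion. Instances: boxes (`W275.UB.UD`), thin sequences of vectors.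
-/

namespace Pool.Agent.N938.TD

open MvPolynomial
open Pool.Agent.W275.UB (EE gn)

/-- a notion of upper density of sets of integer vectors -/
structure Den (ι : Type) [Fintype ι] where
  /-- the upper density is at most `ε` -/
  UD : ℝ → Set (ι → ℤ) → Prop
  mono : ∀ {ε : ℝ} {S T : Set (ι → ℤ)}, UD ε T → S ⊆ T → UD ε S
  union : ∀ {ε ε' : ℝ} {S T : Set (ι → ℤ)}, UD ε S → UD ε' T → UD (ε + ε') (S ∪ T)
  empty : ∀ {ε : ℝ}, 0 < ε → UD ε ∅
  /-- a polynomial is rarely divisible by a large prime `p` -/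
  densp : ∀ c : MvPolynomial ι ℤ, c ≠ 0 → ∀ ε : ℝ, 0 < ε →
    ∃ P₀ : ℕ, ∀ p : ℕ, p.Prime → P₀ ≤ p → UD ε {v : ι → ℤ | (p : ℤ) ∣ eval v c}
  /-- a monic polynomial over `ℤ[X_ι]` without root in `ℚ[X_ι]` rarely has an integral root -/
  hit : ∀ (P A B : Polynomial (MvPolynomial ι ℤ)) (Δ : MvPolynomial ι ℤ), P.Monic → Δ ≠ 0 →
    A * P + B * Polynomial.derivative P = Polynomial.C Δ →
    (∀ S : MvPolynomial ι ℚ, (P.map (MvPolynomial.map (Int.castRingHom ℚ))).eval S ≠ 0) →
    ∀ ε : ℝ, 0 < ε → UD ε {v : ι → ℤ | ∃ T : ℤ, (P.map (eval v)).eval T = 0}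

namespace Den

variable {ι : Type} [Fintype ι] (δ : Den ι)

/-- density zero -/
def D0 (S : Set (ι → ℤ)) : Prop := ∀ ε : ℝ, 0 < ε → δ.UD ε S

/-- a polynomial is rarely divisible by a high power of a large prime `p` -/
def HDens : Prop := ∃ P₁ : ℕ, ∀ c : MvPolynomial ι ℤ, c ≠ 0 → ∀ p : ℕ, p.Prime → P₁ ≤ p →
  ∀ ε : ℝ, 0 < ε → ∃ V : ℕ, δ.UD ε {v : ι → ℤ | (p : ℤ) ^ (V + 1) ∣ eval v c}

variable {δ}

lemma D0.mono {S T : Set (ι → ℤ)} (h : δ.D0 T) (hST : S ⊆ T) : δ.D0 S :=
  fun ε hε => δ.mono (h ε hε) hST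

lemma D0.union {S T : Set (ι → ℤ)} (h : δ.D0 S) (h' : δ.D0 T) : δ.D0 (S ∪ T) := by
  intro ε hε
  have := δ.union (h (ε / 2) (by positivity)) (h' (ε / 2) (by positivity))
  rwa [add_halves] at this

lemma D0.empty : δ.D0 (∅ : Set (ι → ℤ)) := fun _ hε => δ.empty hε

lemma D0.biUnion {J : Type} (s : Finset J) (f : J → Set (ι → ℤ)) (h : ∀ j ∈ s, δ.D0 (f j)) :
    δ.D0 (⋃ j ∈ s, f j) := by
  classical
  induction s using Finset.induction_on with
  | empty => simpa using (D0.empty (δ := δ))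
  | insert a s ha ih =>
    rw [Finset.set_biUnion_insert]
    exact (h a (Finset.mem_insert_self _ _)).union
      (ih fun j hj => h j (Finset.mem_insert_of_mem hj))

lemma D0.zero (c : MvPolynomial ι ℤ) (hc : c ≠ 0) : δ.D0 {v : ι → ℤ | eval v c = 0} := by
  intro ε hε
  obtain ⟨P₀, hP₀⟩ := δ.densp c hc ε hε
  obtain ⟨p, h1, h2⟩ := Nat.exists_infinite_primes P₀
  refine δ.mono (hP₀ p h2 h1) ?_
  intro v hv
  have hv' : eval v c = 0 := hv
  change ((p : ℕ) : ℤ) ∣ eval v c
  rw [hv']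
  exact dvd_zero _

variable (δ)

/-- the ultrafilter does not contain sets of density zero -/
def Gen (U : Ultrafilter (ι → ℤ)) : Prop := ∀ S : Set (ι → ℤ), δ.D0 S → Sᶜ ∈ U

/-- the complements of the sets of density zero -/
def F : Filter (ι → ℤ) where
  sets := {A | δ.D0 Aᶜ}
  univ_sets := by
    change δ.D0 (Set.univ)ᶜ
    rw [Set.compl_univ]
    exact D0.empty
  sets_of_superset := by
    intro A B hA hAB
    exact D0.mono (δ := δ) hA (Set.compl_subset_compl.mpr hAB)
  inter_sets := by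
    intro A B hA hB
    change δ.D0 (A ∩ B)ᶜ
    rw [Set.compl_inter]
    exact D0.union (δ := δ) hA hB

open Filter in
/-- a set of positive upper density belongs to such an ultrafilter -/
theorem exu (S : Set (ι → ℤ)) (hS : ¬ δ.D0 S) : ∃ U : Ultrafilter (ι → ℤ), δ.Gen U ∧ S ∈ U := by
  have hne : (δ.F ⊓ 𝓟 S).NeBot := by
    rw [Filter.inf_principal_neBot_iff]
    intro A hA
    by_contra h
    rw [Set.not_nonempty_iff_eq_empty] at h
    apply hS
    refine D0.mono (δ := δ) hA ?_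
    intro v hv hvA
    have : v ∈ A ∩ S := ⟨hvA, hv⟩
    rw [h] at this
    exact this
  refine ⟨Ultrafilter.of (δ.F ⊓ 𝓟 S), ?_, ?_⟩
  · intro T hT
    have h1 : Tᶜ ∈ δ.F := by
      change δ.D0 (Tᶜ)ᶜ
      rw [compl_compl]
      exact hT
    exact Ultrafilter.of_le _ (Filter.mem_inf_of_left h1)
  · exact Ultrafilter.of_le _ (Filter.mem_inf_of_right (Filter.mem_principal_self S))

end Den

end Pool.Agent.N938.TD
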