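import Pool.Agent.N938.TD.Urel
import Pool.Agent.W177.UB.Gen

/-!
# Transfer to the generic point by an ultraproduct, for abstract densities

Copy of `Pool.Agent.W177.UB.main` and `Pool.Agent.W505.UB.GenT.main` (starting files) with `UD` replaced
by an abstract density.
-/

set_option autoImplicit false

namespace Pool.Agent.N938.TD.Den

open MvPolynomial Filter
open Pool.Agent.W275.UB (EE gn)
open Pool.Agent.W177.UB (Qb gen_aux)

variable {ι : Type} [Fintype ι] (δ : Den ι)

/-- if for a set of positive upper density of specialisations there is a point of degree at most `D`,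
then there is one over the field of rational functions -/
theorem gen (n D : ℕ)
    (G : Set (MvPolynomial (Fin n) (MvPolynomial ι ℤ))) (h : MvPolynomial (Fin n) (MvPolynomial ι ℤ))
    (H1 : ∀ (Ω : Type) [Field Ω] [IsAlgClosed Ω] [Algebra (EE ι) Ω] (x : Fin n → Ω),
      (∀ g ∈ G, eval₂ (gn ι Ω) x g = 0) → ∀ j, IsAlgebraic (EE ι) (x j))
    (H2 : ¬ δ.D0 {v : ι → ℤ |
      ∃ (K : Type) (_ : Field K) (_ : NumberField K) (x : Fin n → K), Module.finrank ℚ K ≤ D ∧
        (∀ g ∈ G, eval₂ ((Int.castRingHom K).comp (eval v)) x g = 0) ∧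
        eval₂ ((Int.castRingHom K).comp (eval v)) x h ≠ 0}) :
    ∃ (L : Type) (_ : Field L) (_ : Algebra (EE ι) L) (x : Fin n → L),
      FiniteDimensional (EE ι) L ∧ Module.finrank (EE ι) L ≤ D ∧
      (∀ g ∈ G, eval₂ (gn ι L) x g = 0) ∧ eval₂ (gn ι L) x h ≠ 0 := by
  classical
  obtain ⟨U, hU, hBad⟩ := δ.exu _ H2
  have hd : ∀ c : MvPolynomial ι ℤ, c ≠ 0 → ∀ᶠ v in (U : Filter (ι → ℤ)), eval v c ≠ 0 :=
    fun c hc => ne_zero_ev hU hc
  have hex : ∀ v : ι → ℤ, ∃ (F : IntermediateField ℚ Qb) (y : Fin n → Qb),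
      v ∈ {v : ι → ℤ |
        ∃ (K : Type) (_ : Field K) (_ : NumberField K) (x : Fin n → K), Module.finrank ℚ K ≤ D ∧
        (∀ g ∈ G, eval₂ ((Int.castRingHom K).comp (eval v)) x g = 0) ∧
        eval₂ ((Int.castRingHom K).comp (eval v)) x h ≠ 0} →
      FiniteDimensional ℚ F ∧ Module.finrank ℚ F ≤ D ∧ (∀ k, y k ∈ F) ∧
      (∀ g ∈ G, eval₂ ((Int.castRingHom Qb).comp (eval v)) y g = 0) ∧
      eval₂ ((Int.castRingHom Qb).comp (eval v)) y h ≠ 0 := by
    intro v
    by_cases hv : v ∈ {v : ι → ℤ |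
        ∃ (K : Type) (_ : Field K) (_ : NumberField K) (x : Fin n → K), Module.finrank ℚ K ≤ D ∧
        (∀ g ∈ G, eval₂ ((Int.castRingHom K).comp (eval v)) x g = 0) ∧
        eval₂ ((Int.castRingHom K).comp (eval v)) x h ≠ 0}
    · obtain ⟨K, iF, iN, x, hD, hG, hh⟩ := hv
      let σ : K →ₐ[ℚ] Qb := IsAlgClosed.lift
      have e1 : (Int.castRingHom Qb).comp (eval v) =
          (σ : K →+* Qb).comp ((Int.castRingHom K).comp (eval v)) := by
        rw [← RingHom.comp_assoc]
        congr 1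
        exact RingHom.ext_int _ _
      have e2 : ∀ g, eval₂ ((Int.castRingHom Qb).comp (eval v)) (fun k => σ (x k)) g =
          σ (eval₂ ((Int.castRingHom K).comp (eval v)) x g) := by
        intro g
        rw [e1]
        exact (eval₂_comp_left (σ : K →+* Qb) ((Int.castRingHom K).comp (eval v)) x g).symm
      refine ⟨σ.fieldRange, fun k => σ (x k), fun _ => ⟨?_, ?_, fun k => ⟨x k, rfl⟩, ?_, ?_⟩⟩
      · exact LinearEquiv.finiteDimensional
          (AlgEquiv.ofInjectiveField σ).toLinearEquiv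
      · refine le_trans (le_of_eq ?_) hD
        exact (AlgEquiv.ofInjectiveField σ).toLinearEquiv.finrank_eq.symm
      · intro g hg
        rw [e2, hG g hg, map_zero]
      · rw [e2]
        intro h0
        exact hh ((map_eq_zero σ).mp h0)
    · exact ⟨⊥, fun _ => 0, fun h => absurd h hv⟩
  choose F y hFy using hex
  refine gen_aux ι U hd (urel U hU) n D G h H1 (fun k v => y v k) F ?_
  filter_upwards [hBad] with v hv
  exact hFy v hv

/-- the same for an arbitrary finite type of unknowns -/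
theorem genT (τ : Type) [Fintype τ] (D : ℕ)
    (G : Set (MvPolynomial τ (MvPolynomial ι ℤ))) (h : MvPolynomial τ (MvPolynomial ι ℤ))
    (h1 : ∀ (Ω : Type) [Field Ω] [IsAlgClosed Ω] [Algebra (EE ι) Ω] (x : τ → Ω),
      (∀ g ∈ G, eval₂ (gn ι Ω) x g = 0) → ∀ j, IsAlgebraic (EE ι) (x j))
    (h2 : ¬ δ.D0 {v : ι → ℤ |
      ∃ (K : Type) (_ : Field K) (_ : NumberField K) (x : τ → K), Module.finrank ℚ K ≤ D ∧
        (∀ g ∈ G, eval₂ ((Int.castRingHom K).comp (eval v)) x g = 0) ∧
        eval₂ ((Int.castRingHom K).comp (eval v)) x h ≠ 0}) :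
    ∃ (L : Type) (_ : Field L) (_ : Algebra (EE ι) L) (x : τ → L),
      FiniteDimensional (EE ι) L ∧ Module.finrank (EE ι) L ≤ D ∧
      (∀ g ∈ G, eval₂ (gn ι L) x g = 0) ∧ eval₂ (gn ι L) x h ≠ 0 := by
  let e : Fin (Fintype.card τ) ≃ τ := (Fintype.equivFin τ).symm
  have key : ∀ (S : Type) [CommRing S] (φ : MvPolynomial ι ℤ →+* S)
      (x' : Fin (Fintype.card τ) → S) (g : MvPolynomial τ (MvPolynomial ι ℤ)),
      eval₂ φ x' (rename e.symm g) = eval₂ φ (x' ∘ e.symm) g := by
    intro S _ φ x' g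
    rw [eval₂_rename]
  have hA : ∀ (S : Type) [CommRing S] (φ : MvPolynomial ι ℤ →+* S)
      (x' : Fin (Fintype.card τ) → S),
      (∀ g ∈ (rename e.symm '' G : Set (MvPolynomial (Fin (Fintype.card τ)) (MvPolynomial ι ℤ))),
        eval₂ φ x' g = 0) ↔ ∀ g ∈ G, eval₂ φ (x' ∘ e.symm) g = 0 := by
    intro S _ φ x'
    constructor
    · intro hh g hg
      rw [← key]
      exact hh _ ⟨g, hg, rfl⟩
    · rintro hh _ ⟨g, hg, rfl⟩
      rw [key]
      exact hh g hg
  have hx : ∀ (S : Type) (x : τ → S), (x ∘ e) ∘ e.symm = x := by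
    intro S x
    funext t
    simp
  obtain ⟨L, iL, iA, x', hfd, hfr, hz, hne⟩ := δ.gen (Fintype.card τ) D
    (rename e.symm '' G) (rename e.symm h) (by
      intro Ω _ _ _ x' hx' j
      rw [hA] at hx'
      have := h1 Ω (x' ∘ e.symm) hx' (e j)
      simpa using this) (by
      intro hUD
      apply h2
      intro ε hε
      convert hUD ε hε using 2
      ext v
      constructor
      · rintro ⟨K, iK, iN, x, hK, hG, hh⟩
        refine ⟨K, iK, iN, x ∘ e, hK, ?_, ?_⟩
        · rw [hA, hx]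
          exact hG
        · rw [key, hx]
          exact hh
      · rintro ⟨K, iK, iN, x', hK, hG, hh⟩
        refine ⟨K, iK, iN, x' ∘ e.symm, hK, ?_, ?_⟩
        · rw [hA] at hG
          exact hG
        · rw [key] at hh
          exact hh)
  refine ⟨L, iL, iA, x' ∘ e.symm, hfd, hfr, ?_, ?_⟩
  · rw [hA] at hz
    exact hz
  · rw [key] at hne
    exact hne

end Pool.Agent.N938.TD.Den
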