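import Pool.Agent.N938.TD.Seqs
import Pool.Agent.N938.TD.Cnt

/-!
# One null set for countably many sets of vectors of density zero (helper938)
-/

set_option autoImplicit false
set_option linter.unusedSectionVars false

namespace Pool.Agent.N938.TD

open Pool.Agent.N666.TM Pool.Agent.N455.TX Pool.Agent.N455.HT

/-- **One null set** along an equidistributed array for countably many sets of vectors of density
zero. -/
theorem one_set {x : ℕ → ℕ → ℕ → ℤ} {S₁ S₂ : ℕ → Finset ℕ}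
    (hS₁ : ∀ N, S₁ N ⊆ Finset.Ioc N (2 * N)) (hS₂ : ∀ N, S₂ N ⊆ Finset.Ioc N (2 * N))
    (h₁ : EquiA S₁ x) (h₂ : EquiA S₂ x) {I : Type*} [Countable I] (r m : I → ℕ)
    (A : ∀ i, Set (Fin (m i + 1) × Fin (r i) → ℤ))
    (hA : ∀ (i : I) (δ : Den (Fin (m i + 1) × Fin (r i))), δ.D0 (A i)) :
    ∃ E : Set ℕ, NullIn S₁ E ∧ NullIn S₂ E ∧
      ∀ i, {t : ℕ | t ∉ E ∧ (fun q : Fin (m i + 1) × Fin (r i) => x q.1 q.2 t) ∈ A i}.Finite := by
  classical
  have key : ∀ (S : ℕ → Finset ℕ), EquiA S x → ∀ i, NullIn S {t : ℕ |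
        (fun q : Fin (m i + 1) × Fin (r i) => x q.1 q.2 t) ∈ A i} := by
    intro S hS i
    have h1 := hS.part (ι := Fin (m i + 1) × Fin (r i)) (fun q => ((q.1 : ℕ), (q.2 : ℕ))) (by
      intro q q' hqq
      simp only [Prod.mk.injEq] at hqq
      exact Prod.ext (Fin.ext hqq.1) (Fin.ext hqq.2))
    exact null_of_D0 (WS.of_equi h1) (hA i _)
  exact diagC hS₁ hS₂ (key S₁ h₁) (key S₂ h₂)

end Pool.Agent.N938.TD
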