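import Pool.Agent.N455.TX.Seq
import Pool.Agent.N455.HT.Equi
import Pool.Agent.N938.TD.Den
import Pool.Agent.N938.TD.One

/-!
# Equidistributed sequences of vectors (helper938)

The notion of density along a sequence which is equidistributed modulo all integers (helper455,
`Pool.Agent.N455.TX.smOf`) is an abstract density in the sense of `Pool.Agent.N938.TD.Den`. For
countably many sets of vectors which have density zero for all abstract densities there is one null set
of indices.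
-/

set_option autoImplicit false
set_option linter.unusedSectionVars false

namespace Pool.Agent.N938.TD

open MvPolynomial Pool.Agent.N666.TM Pool.Agent.N455.TX Pool.Agent.N455.HT Filter Topology
open Pool.Agent.N666.VE (primes)

/-- the abstract density given by a notion of density with Hilbert's irreducibility theorem -/
noncomputable def denOf {ι : Type} [Fintype ι] (s : Sm ι) : Den ι where
  UD := s.UD
  mono := fun h hST => s.mono' h hST
  union := fun h h' => s.union' h h'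
  empty := fun hε => s.empty' hε
  densp := fun c hc ε hε => s.densp' c hc ε hε
  hit := by
    intro P A B Δ hP hΔ hAB hroot ε hε
    refine s.hit' P hP (fun a ha => hroot (MvPolynomial.map (Int.castRingHom ℚ) a) ?_) ε hε
    rw [Polynomial.eval_map, Polynomial.eval₂_hom, ha, map_zero]

section

variable {ι : Type} [Fintype ι] [DecidableEq ι]

theorem null_of_D0 {S : ℕ → Finset ℕ} {x : ℕ → ι → ℤ} (hw : WS S x) {A : Set (ι → ℤ)}
    (h : (denOf (smOf hw)).D0 A) : NullIn S {t | x t ∈ A} := fun ε hε => h ε hε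

end

/-- Every finite part of the array `x i j` of sequences of integers is equidistributed modulo all
integers over the sets `S N`, `N → ∞`. -/
def EquiA (S : ℕ → Finset ℕ) (x : ℕ → ℕ → ℕ → ℤ) : Prop :=
  ∀ (T : Finset (ℕ × ℕ)) (q : ℕ), 1 ≤ q → ∀ r : ℕ × ℕ → ℤ,
    Tendsto (fun N : ℕ => ({n : ℕ | n ∈ S N ∧ ∀ p ∈ T, x p.1 p.2 n ≡ r p [ZMOD q]}.ncard : ℝ) /
      (S N).card) atTop (𝓝 (1 / (q : ℝ) ^ T.card))

/-- a finite part of the array -/
theorem EquiA.part {S : ℕ → Finset ℕ} {x : ℕ → ℕ → ℕ → ℤ} (h : EquiA S x) {ι : Type} [Fintype ι]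
    [DecidableEq ι] (e : ι → ℕ × ℕ) (he : Function.Injective e) :
    Equi S (fun n (i : ι) => x (e i).1 (e i).2 n) := by
  classical
  intro q hq r
  have h1 := h (Finset.univ.image e) q hq (fun p => if hp : ∃ i, e i = p then r hp.choose else 0)
  have h2 : ∀ i, (if hp : ∃ i', e i' = e i then r hp.choose else 0) = r i := by
    intro i
    have hp : ∃ i', e i' = e i := ⟨i, rfl⟩
    rw [dif_pos hp]
    congr 1
    exact he hp.choose_spec
  rw [Finset.card_image_of_injective _ he, Finset.card_univ] at h1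
  refine h1.congr fun N => ?_
  congr 3
  ext n
  simp only [Set.mem_ofPred_eq, Finset.mem_image, Finset.mem_univ, true_and]
  refine and_congr_right fun _ => ⟨fun h3 i => ?_, ?_⟩
  · have h4 := h3 (e i) ⟨i, rfl⟩
    rwa [h2] at h4
  · rintro h3 p ⟨i, rfl⟩
    rw [h2]
    exact h3 i

/-- the array of the integer parts of generalised polynomials is equidistributed modulo all integers
over the integers and over the primes -/
theorem equiA_fl (F : ℕ → ℕ → Finset ℝ) (a : ℕ → ℕ → ℝ → ℝ) (c : ℕ → ℕ → ℝ)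
    (h : ∀ i j, c i j ∈ F i j ∧ (∀ x ∈ F i j, x ≤ c i j) ∧ 0 < c i j ∧ (∀ m : ℕ, c i j ≠ m) ∧
      0 < a i j (c i j))
    (hc : Function.Injective fun q : ℕ × ℕ => c q.1 q.2) :
    EquiA (fun N => Finset.Ioc N (2 * N)) (fun i j n => ⌊∑ x ∈ F i j, a i j x * (n : ℝ) ^ x⌋) ∧
    EquiA primes (fun i j n => ⌊∑ x ∈ F i j, a i j x * (n : ℝ) ^ x⌋) := by
  classical
  -- the parts indexed by nonempty finite sets
  have key : ∀ T : Finset (ℕ × ℕ), T.Nonempty →
      Equi (fun N => Finset.Ioc N (2 * N))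
        (fl (fun q : T => F q.1.1 q.1.2) (fun q => a q.1.1 q.1.2)) ∧
      Equi primes (fl (fun q : T => F q.1.1 q.1.2) (fun q => a q.1.1 q.1.2)) := by
    intro T hT
    have : Nonempty T := hT.to_subtype
    obtain ⟨h1, h2⟩ := fl_well (ι := T) (F := fun q => F q.1.1 q.1.2)
      (a := fun q => a q.1.1 q.1.2) (c := fun q => c q.1.1 q.1.2) (fun q => h _ _)
      (hc.comp Subtype.val_injective)
    exact ⟨Equi.of_ws (WS.of_power h1), Equi.of_ws (WS.of_power h2)⟩
  have conv : ∀ (S : ℕ → Finset ℕ) (T : Finset (ℕ × ℕ)),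
      Equi S (fl (fun q : T => F q.1.1 q.1.2) (fun q => a q.1.1 q.1.2)) →
      ∀ q : ℕ, 1 ≤ q → ∀ r : ℕ × ℕ → ℤ,
      Tendsto (fun N : ℕ => ({n : ℕ | n ∈ S N ∧ ∀ p ∈ T,
        ⌊∑ x ∈ F p.1 p.2, a p.1 p.2 x * (n : ℝ) ^ x⌋ ≡ r p [ZMOD q]}.ncard : ℝ) /
        (S N).card) atTop (𝓝 (1 / (q : ℝ) ^ T.card)) := by
    intro S T hE q hq r
    have h1 := hE q hq (fun p => r p.1)
    rw [Fintype.card_coe] at h1
    refine h1.congr fun N => ?_
    congr 3
    ext n
    simp only [Set.mem_ofPred_eq]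
    refine and_congr_right fun _ => ⟨fun h3 p hp => h3 ⟨p, hp⟩, fun h3 p => h3 p.1 p.2⟩
  have hemp : ∀ (S : ℕ → Finset ℕ), (∀ᶠ N in atTop, 0 < (S N).card) → ∀ (q : ℕ) (r : ℕ × ℕ → ℤ),
      Tendsto (fun N : ℕ => ({n : ℕ | n ∈ S N ∧ ∀ p ∈ (∅ : Finset (ℕ × ℕ)),
        ⌊∑ x ∈ F p.1 p.2, a p.1 p.2 x * (n : ℝ) ^ x⌋ ≡ r p [ZMOD q]}.ncard : ℝ) /
        (S N).card) atTop (𝓝 (1 / (q : ℝ) ^ (∅ : Finset (ℕ × ℕ)).card)) := by
    intro S hS q r
    rw [Finset.card_empty, pow_zero, div_one]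
    refine (tendsto_const_nhds (x := (1 : ℝ))).congr' ?_
    filter_upwards [hS] with N hN
    have h1 : {n : ℕ | n ∈ S N ∧ ∀ p ∈ (∅ : Finset (ℕ × ℕ)),
        ⌊∑ x ∈ F p.1 p.2, a p.1 p.2 x * (n : ℝ) ^ x⌋ ≡ r p [ZMOD q]} = (S N : Set ℕ) := by
      ext n
      simp
    rw [h1, Set.ncard_coe_finset, div_self]
    exact_mod_cast hN.ne'
  have hpos : ∀ S : ℕ → Finset ℕ, Equi S (fl (fun q : ({(0, 0)} : Finset (ℕ × ℕ)) => F q.1.1 q.1.2)
      (fun q => a q.1.1 q.1.2)) → ∀ᶠ N in atTop, 0 < (S N).card := by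
    intro S hE
    have h1 := hE 1 le_rfl (fun _ => 0)
    have h2 : (0 : ℝ) < 1 / ((1 : ℕ) : ℝ) ^ Fintype.card ({(0, 0)} : Finset (ℕ × ℕ)) := by positivity
    filter_upwards [h1.eventually (lt_mem_nhds h2)] with N hN
    by_contra h0
    have h3 : (S N).card = 0 := by omega
    rw [h3, Nat.cast_zero, div_zero] at hN
    exact lt_irrefl _ hN
  constructor
  · intro T q hq r
    rcases T.eq_empty_or_nonempty with rfl | hT
    · exact hemp _ (hpos _ (key _ (Finset.singleton_nonempty _)).1) q r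
    · exact conv _ T (key T hT).1 q hq r
  · intro T q hq r
    rcases T.eq_empty_or_nonempty with rfl | hT
    · exact hemp _ (hpos _ (key _ (Finset.singleton_nonempty _)).2) q r
    · exact conv _ T (key T hT).2 q hq r

end Pool.Agent.N938.TD
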