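import Pool.Agent.N938.TD.Gen
import Pool.Agent.W275.UB.Fin8

set_option autoImplicit false

/-!
# Uniform boundedness of preperiodic points for abstract densities

Copies of `Pool.Agent.W275.UB.bad1`, `typ2`, `bddO_of_type` (starting files) with the density of boxes
replaced by an abstract density `δ : Den (Idx (N + 1) d × J)`. The constants depend on `N`, `d`, `D` only.
-/

namespace Pool.Agent.N938.TD

open MvPolynomial Pool.Agent.H936R2 Pool.Agent.H927R2.RD H294UB
open Pool.Agent.W275.UB hiding D0 UD bad1 typ2 bddO_of_type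

theorem bad1 (hitr : S_itr) (htab : S_tab) (hfin : S_fin) (hcnt : TaskCnt)
    {N d D s : ℕ} (hd : 2 ≤ d) {O J : Type} [CommRing O] [IsDomain O] [Fintype J]
    (δ : Den (Idx (N + 1) d × J))
    (ω : Module.Basis J ℤ O) (c₁ : MvPolynomial (Idx (N + 1) d) ℤ)
    (cn : MvPolynomial (Idx (N + 1) d × J) ℤ) (hcn : cn ≠ 0)
    (hdiv : ∀ (R : Type) [CommRing R] (σ : O →+* R) (w : Idx (N + 1) d × J → R),
      aeval (cv (fun j => σ (ω j)) w) c₁ ∣ aeval w cn)
    (hMac : Mac c₁ s) (b0 e0 b1 e1 : ℕ) (he1 : 0 < e1)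
    (hloc : ∀ (L : Type) [Field L] [Algebra (EE (Idx (N + 1) d × J)) L]
      [FiniteDimensional (EE (Idx (N + 1) d × J)) L],
      Module.finrank (EE (Idx (N + 1) d × J)) L ≤ D → ∀ σ : O →+* L,
      ∀ x : Fin (N + 1) → L, x ≠ 0 →
      (∃ m n : ℕ, m < n ∧ ∃ c : L, c ≠ 0 ∧
        (pt (sy (cv (fun j => σ (ω j)) fun q => gn (Idx (N + 1) d × J) L (X q))))^[n] x =
          c • (pt (sy (cv (fun j => σ (ω j)) fun q => gn (Idx (N + 1) d × J) L (X q))))^[m] x) →
      ∃ c : L, c ≠ 0 ∧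
        (pt (sy (cv (fun j => σ (ω j)) fun q => gn (Idx (N + 1) d × J) L (X q))))^[b0 + e0] x =
          c • (pt (sy (cv (fun j => σ (ω j)) fun q => gn (Idx (N + 1) d × J) L (X q))))^[b0] x)
    (i0 j k : Fin (N + 1)) :
    δ.D0 {w : Idx (N + 1) d × J → ℤ |
      ∃ (K : Type) (_ : Field K) (_ : NumberField K) (y : Fin (N + 1) ⊕ J → K),
        Module.finrank ℚ K ≤ D ∧
        (∀ g ∈ GO ω b1 e1 i0, eval₂ ((Int.castRingHom K).comp (eval w)) y g = 0) ∧
        eval₂ ((Int.castRingHom K).comp (eval w)) y (mO (N + 1) d J b0 e0 j k) ≠ 0} := by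
  classical
  by_contra hcon
  obtain ⟨L, _, _, y, hfd, hdeg, hy, hne⟩ := δ.genT (Fin (N + 1) ⊕ J) D
    (GO ω b1 e1 i0) (mO (N + 1) d J b0 e0 j k) (by
      intro Ω _ _ _ y hy
      have hy' : y = Sum.elim (fun i => y (Sum.inl i)) (fun j => y (Sum.inr j)) := by
        funext t
        cases t <;> rfl
      rw [hy'] at hy
      obtain ⟨⟨σ, hσ⟩, hx0, hmin⟩ := (go_iff hitr htab ω b1 e1 i0 _ _ _).1 hy
      rw [hσ] at hmin
      have hM := monIn_cv ω hcn hdiv hMac Ω σ
      -- the images of the basis are algebraic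
      have hint : ∀ x : O, IsIntegral ℤ (σ x) := by
        intro x
        haveI : Module.Finite ℤ O := Module.Finite.of_basis ω
        have h1 : IsIntegral ℤ x := Algebra.IsIntegral.isIntegral x
        have h2 := h1.map (σ.toIntAlgHom)
        exact h2
      have hintE : ∀ x : O, IsAlgebraic (EE (Idx (N + 1) d × J)) (σ x) := by
        intro x
        obtain ⟨p, hp, hpx⟩ := hint x
        refine IsIntegral.isAlgebraic
          ⟨p.map (Int.castRingHom (EE (Idx (N + 1) d × J))), hp.map _, ?_⟩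
        rw [Polynomial.eval₂_map]
        have h2 : (algebraMap (EE (Idx (N + 1) d × J)) Ω).comp
            (Int.castRingHom (EE (Idx (N + 1) d × J))) = algebraMap ℤ Ω := RingHom.ext_int _ _
        rw [h2]
        exact hpx
      -- the algebraic closure
      let E' := algebraicClosure (EE (Idx (N + 1) d × J)) Ω
      have hz' : ∀ j, ∃ z' : E', (z' : Ω) = σ (ω j) := fun j =>
        ⟨⟨σ (ω j), mem_algebraicClosure_iff.2 (hintE (ω j))⟩, rfl⟩
      choose z' hz' using hz'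
      set v' : Idx (N + 1) d → E' := cv z' (fun q => gn (Idx (N + 1) d × J) E' (X q)) with hv'
      have hgn : ∀ q, algebraMap E' Ω (gn (Idx (N + 1) d × J) E' (X q)) =
          gn (Idx (N + 1) d × J) Ω (X q) := by
        intro q
        rw [gn, gn, RingHom.comp_apply, RingHom.comp_apply]
        exact (IsScalarTower.algebraMap_apply (EE (Idx (N + 1) d × J)) E' Ω _).symm
      have hv : (fun i => algebraMap E' Ω (v' i)) =
          cv (fun j => σ (ω j)) fun q => gn (Idx (N + 1) d × J) Ω (X q) := by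
        funext i
        simp only [hv', cv, map_sum, map_mul, hgn]
        apply Finset.sum_congr rfl
        intro j _
        congr 1
        exact hz' j
      have hP : (fun i => map (algebraMap E' Ω) (sy v' i)) =
          sy (cv (fun j => σ (ω j)) fun q => gn (Idx (N + 1) d × J) Ω (X q)) := by
        rw [map_sy, hv]
      obtain ⟨C, hC⟩ := hcnt N s b1 e1 he1
      have hxalg : ∀ i, IsAlgebraic E' (y (Sum.inl i)) := by
        apply hfin E' Ω (N + 1) C
          (insert (X i0 - 1) (Set.range fun jk : Fin (N + 1) × Fin (N + 1) =>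
            mnr (sy v') b1 e1 jk.1 jk.2))
        · intro Y hY
          have hY' : ∀ u ∈ Y, u i0 = 1 ∧ ∃ c : Ω, c ≠ 0 ∧
              (pt (sy (cv (fun j => σ (ω j)) fun q =>
                gn (Idx (N + 1) d × J) Ω (X q))))^[b1 + e1] u =
              c • (pt (sy (cv (fun j => σ (ω j)) fun q =>
                gn (Idx (N + 1) d × J) Ω (X q))))^[b1] u := by
            intro u hu
            have h2 : u i0 = 1 := by
              have := hY u hu _ (Set.mem_insert _ _)
              rw [map_sub, aeval_X, map_one, sub_eq_zero] at this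
              exact this
            have hu0 : u ≠ 0 := by
              intro h
              rw [h] at h2
              exact zero_ne_one h2
            refine ⟨h2, prop_of_minors _ _ (iter_ne_zero _ hM u hu0 _)
              (iter_ne_zero _ hM u hu0 _) fun j k => ?_⟩
            have h3 := hY u hu _ (Set.mem_insert_of_mem _ ⟨(j, k), rfl⟩)
            rw [aeval_def, eval_mnr hitr, hP] at h3
            exact h3
          apply hC Ω d hd _ (fun i => sy_hom _ i) hM Y
          · intro u hu h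
            have := (hY' u hu).1
            rw [h] at this
            exact zero_ne_one this
          · intro u hu z hz c huz
            have h1 := (hY' u hu).1
            have h2 := (hY' z hz).1
            rw [huz, Pi.smul_apply, smul_eq_mul, h2, mul_one] at h1
            rw [huz, h1, one_smul]
          · exact fun u hu => (hY' u hu).2
        · intro g hg
          rcases Set.mem_insert_iff.1 hg with rfl | ⟨jk, rfl⟩
          · rw [map_sub, aeval_X, map_one, sub_eq_zero]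
            exact hx0
          · change aeval _ (mnr (sy v') b1 e1 jk.1 jk.2) = 0
            rw [aeval_def, eval_mnr hitr, hP]
            exact hmin jk.1 jk.2
      intro t
      cases t with
      | inl i => exact (hxalg i).restrictScalars (EE (Idx (N + 1) d × J))
      | inr j =>
        have h1 := congrFun hσ j
        have h2 : y (Sum.inr j) = σ (ω j) := h1
        rw [h2]
        exact hintE _) hcon
  haveI := hfd
  have hy' : y = Sum.elim (fun i => y (Sum.inl i)) (fun j => y (Sum.inr j)) := by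
    funext t
    cases t <;> rfl
  rw [hy'] at hy hne
  obtain ⟨⟨σ, hσ⟩, h1, h2⟩ := (go_iff hitr htab ω b1 e1 i0 _ _ _).1 hy
  rw [eval_mO hitr] at hne
  rw [hσ] at h2 hne
  have hM := monIn_cv ω hcn hdiv hMac L σ
  have hx0 : (fun i => y (Sum.inl i)) ≠ 0 := by
    intro h
    have h3 : (fun i => y (Sum.inl i)) i0 = 1 := h1
    rw [h] at h3
    exact zero_ne_one h3
  obtain ⟨c, hc, h3⟩ := prop_of_minors _ _ (iter_ne_zero _ hM _ hx0 _)
    (iter_ne_zero _ hM _ hx0 _) h2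
  obtain ⟨c', _, h4⟩ := hloc L hdeg σ _ hx0 ⟨b1, b1 + e1, by omega, c, hc, h3⟩
  exact hne (minors_of_prop _ _ c' h4 j k)


/-- bounded types for all abstract densities -/
def S_type3 : Prop := ∀ N d D : ℕ, 2 ≤ d → ∃ b e : ℕ, 0 < e ∧
  ∀ (O J : Type) [CommRing O] [IsDomain O] [Fintype J] (ω : Module.Basis J ℤ O)
    (δ : Den (Idx (N + 1) d × J)), δ.HDens →
  δ.D0 {w : Idx (N + 1) d × J → ℤ | ¬ ∀ (K : Type) [Field K] [NumberField K] (σ : O →+* K),
    Module.finrank ℚ K ≤ D → ∀ x : Fin (N + 1) → K, x ≠ 0 →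
    (∃ m n : ℕ, m < n ∧ ∃ c : K, c ≠ 0 ∧
      (pt (sw ω σ w))^[n] x = c • (pt (sw ω σ w))^[m] x) →
    ∃ c : K, c ≠ 0 ∧ (pt (sw ω σ w))^[b + e] x = c • (pt (sw ω σ w))^[b] x}

theorem typ2 (hitr : S_itr) (heul : S_eul) (htab : S_tab) (hcore : S_core) (hlmn : S_lmn2)
    (hlmg : S_lmg2) (hnorm : S_norm) (hfin : S_fin) (hc1 : S_c1) (hc2 : S_c2) (hcnt : TaskCnt) :
    S_type3 := by
  classical
  intro N d D hd
  obtain ⟨c₁, s, ⟨v₀, hv₀⟩, hMac⟩ := hc1 (N + 1) d (by omega)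
  have hc₁ : c₁ ≠ 0 := by
    intro h
    rw [h, map_zero] at hv₀
    exact zero_ne_one hv₀
  -- the generic point
  obtain ⟨e0, he0, hcore0⟩ := hcore N d D 2 3 hd Nat.prime_two Nat.prime_three (by norm_num)
  obtain ⟨c₂, s₂, hc₂, hCrit⟩ := hc2 N d e0 hd he0
  obtain ⟨V₂, hV₂⟩ := hlmg D 2 (Idx (N + 1) d) c₁ c₂ Nat.prime_two ⟨v₀, hv₀⟩ hc₂
  obtain ⟨V₃, hV₃⟩ := hlmg D 3 (Idx (N + 1) d) c₁ 1 Nat.prime_three ⟨v₀, hv₀⟩ one_ne_zero
  obtain ⟨b0, hb0⟩ := hcore0 V₂
  refine ⟨b0, e0, he0, ?_⟩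
  intro O J _ _ _ ω δ ⟨P₁, hdens⟩
  have hloc : ∀ (L : Type) [Field L] [Algebra (EE (Idx (N + 1) d × J)) L]
      [FiniteDimensional (EE (Idx (N + 1) d × J)) L],
      Module.finrank (EE (Idx (N + 1) d × J)) L ≤ D → ∀ σ : O →+* L,
      ∀ x : Fin (N + 1) → L, x ≠ 0 →
      (∃ m n : ℕ, m < n ∧ ∃ c : L, c ≠ 0 ∧
        (pt (sy (cv (fun j => σ (ω j)) fun q => gn (Idx (N + 1) d × J) L (X q))))^[n] x =
          c • (pt (sy (cv (fun j => σ (ω j)) fun q => gn (Idx (N + 1) d × J) L (X q))))^[m] x) →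
      ∃ c : L, c ≠ 0 ∧
        (pt (sy (cv (fun j => σ (ω j)) fun q => gn (Idx (N + 1) d × J) L (X q))))^[b0 + e0] x =
          c • (pt (sy (cv (fun j => σ (ω j)) fun q =>
            gn (Idx (N + 1) d × J) L (X q))))^[b0] x := by
    intro L _ _ _ hL σ x hx hpre
    haveI : CharZero L :=
      charZero_of_injective_algebraMap (algebraMap (EE (Idx (N + 1) d × J)) L).injective
    exact hb0 c₁ c₂ s s₂ hMac hCrit L _ (hV₂ O J ω L hL σ) (hV₃ O J ω L hL σ).weaken x hx hpre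
  intro ε hε
  obtain ⟨n₁, hn₁, hdiv₁⟩ := hnorm O J (Idx (N + 1) d) ω c₁ hc₁
  -- two large primes
  obtain ⟨P₀, hP₀⟩ := δ.densp n₁ hn₁ (ε / 4) (by positivity)
  obtain ⟨p, hp, hpP'⟩ := exists_prime_ge (max P₀ P₁)
  have hpP : P₀ ≤ p := (le_max_left _ _).trans hpP'
  have hp2 : P₁ ≤ p := (le_max_right P₀ P₁).trans hpP'
  obtain ⟨q, hq, hqP⟩ := exists_prime_ge (max P₀ (p + 1))
  have hpq : p ≠ q := by
    have := (le_max_right P₀ (p + 1)).trans hqP
    omega
  obtain ⟨e1, he1, hcore1⟩ := hcore N d D p q hd hp hq hpq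
  obtain ⟨c₂', s₂', hc₂', hCrit'⟩ := hc2 N d e1 hd he1
  obtain ⟨n₂, hn₂, hdiv₂⟩ := hnorm O J (Idx (N + 1) d) ω c₂' hc₂'
  obtain ⟨V1, hV1⟩ := hdens n₂ hn₂ p hp hp2 (ε / 4) (by positivity)
  obtain ⟨b1, hb1⟩ := hcore1 (D * V1)
  set Z : Fin (N + 1) × Fin (N + 1) × Fin (N + 1) → Set (Idx (N + 1) d × J → ℤ) := fun t =>
    {w : Idx (N + 1) d × J → ℤ |
      ∃ (K : Type) (_ : Field K) (_ : NumberField K) (y : Fin (N + 1) ⊕ J → K),
        Module.finrank ℚ K ≤ D ∧
        (∀ g ∈ GO ω b1 e1 t.1, eval₂ ((Int.castRingHom K).comp (eval w)) y g = 0) ∧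
        eval₂ ((Int.castRingHom K).comp (eval w)) y (mO (N + 1) d J b0 e0 t.2.1 t.2.2) ≠ 0}
    with hZ
  have hZ0 : δ.D0 (⋃ t ∈ (Finset.univ : Finset (Fin (N + 1) × Fin (N + 1) × Fin (N + 1))), Z t) :=
    Den.D0.biUnion _ _ fun t _ => bad1 hitr htab hfin hcnt hd δ ω c₁ n₁ hn₁ hdiv₁ hMac b0 e0 b1 e1
      he1 hloc t.1 t.2.1 t.2.2
  have htot := δ.union (δ.union (δ.union (hP₀ p hp hpP) (hP₀ q hq ((le_max_left _ _).trans hqP)))
    hV1) (hZ0 (ε / 4) (by positivity))
  have hsum : ε / 4 + ε / 4 + ε / 4 + ε / 4 = ε := by ring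
  rw [hsum] at htot
  apply δ.mono htot
  intro w hw
  by_contra hnot
  simp only [Set.mem_union, not_or] at hnot
  obtain ⟨⟨⟨hw1, hw2⟩, hw3⟩, hw4⟩ := hnot
  apply hw
  intro K _ _ σ hK x hx hpre
  by_contra hcon
  have hlp : LM p D (D * V1) c₁ c₂' K (cv (fun j => σ (ω j)) fun q => (w q : K)) :=
    hlmn D p V1 O J (Idx (N + 1) d) ω c₁ c₂' n₁ n₂ hdiv₁ hdiv₂ K σ hK hp w hw1 hw3
  have hlq : LM q D 0 c₁ 1 K (cv (fun j => σ (ω j)) fun q => (w q : K)) := by
    refine LM.weaken (V := D * 0) (hlmn D q 0 O J (Idx (N + 1) d) ω c₁ 1 n₁ 1 hdiv₁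
      (fun R _ σ w => by rw [map_one, map_one]) K σ hK hq w hw2 ?_)
    rw [map_one, zero_add, pow_one]
    intro h
    have h1 := Int.isUnit_iff.1 (isUnit_of_dvd_one h)
    have h2 := hq.two_le
    omega
  obtain ⟨c, hc, hrel⟩ := hb1 c₁ c₂' s s₂' hMac hCrit' K _ hlp hlq x hx hpre
  have hev : ∀ q, ((Int.castRingHom K).comp (eval w)) (X q : MvPolynomial (Idx (N + 1) d × J) ℤ) =
      (w q : K) := by
    intro q
    simp
  have hsy : (sy (cv (fun j => σ (ω j)) fun q => ((Int.castRingHom K).comp (eval w))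
      (X q : MvPolynomial (Idx (N + 1) d × J) ℤ))) = sw ω σ w := by
    simp only [hev]
    rfl
  have hM : MonIn s (sw ω σ w) := by
    apply hMac
    have h1 := hdiv₁ K σ (fun q => (w q : K))
    rw [aeval_cast] at h1
    have h2 : eval w n₁ ≠ 0 := by
      intro h
      apply hw1
      change (p : ℤ) ∣ eval w n₁
      rw [h]
      exact dvd_zero _
    exact (ne_zero_of_dvd_ne_zero (Int.cast_ne_zero.2 h2) h1).isUnit
  obtain ⟨i0, hi0⟩ := Function.ne_iff.1 hx
  have hi0' : x i0 ≠ 0 := hi0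
  -- the scaled point
  set t : K := (x i0)⁻¹ with ht
  have ht0 : t ≠ 0 := inv_ne_zero hi0'
  set y : Fin (N + 1) → K := t • x with hy
  have hyit : ∀ m, (pt (sw ω σ w))^[m] y = t ^ d ^ m • (pt (sw ω σ w))^[m] x :=
    fun m => iter_smul _ (fun i => sy_hom _ i) heul t x m
  apply hw4
  -- some minor does not vanish
  have hex : ∃ j k, (pt (sw ω σ w))^[b0 + e0] y j * (pt (sw ω σ w))^[b0] y k -
      (pt (sw ω σ w))^[b0 + e0] y k * (pt (sw ω σ w))^[b0] y j ≠ 0 := by
    by_contra hall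
    push Not at hall
    apply hcon
    have h1 : ∀ j k, (pt (sw ω σ w))^[b0 + e0] x j * (pt (sw ω σ w))^[b0] x k -
        (pt (sw ω σ w))^[b0 + e0] x k * (pt (sw ω σ w))^[b0] x j = 0 := by
      intro j k
      have h2 := hall j k
      rw [hyit, hyit] at h2
      simp only [Pi.smul_apply, smul_eq_mul] at h2
      have h3 : t ^ d ^ (b0 + e0) * t ^ d ^ b0 ≠ 0 :=
        mul_ne_zero (pow_ne_zero _ ht0) (pow_ne_zero _ ht0)
      apply mul_left_cancel₀ h3
      rw [mul_zero]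
      linear_combination h2
    exact prop_of_minors _ _ (iter_ne_zero _ hM x hx _) (iter_ne_zero _ hM x hx _) h1
  obtain ⟨j, k, hjk⟩ := hex
  rw [Set.mem_iUnion₂]
  refine ⟨(i0, j, k), Finset.mem_univ _, K, inferInstance, inferInstance,
    Sum.elim y (fun j => σ (ω j)), hK, ?_, ?_⟩
  · rw [go_iff hitr htab, hsy]
    refine ⟨⟨σ, rfl⟩, ?_, ?_⟩
    · rw [hy, Pi.smul_apply, smul_eq_mul, ht]
      exact inv_mul_cancel₀ hi0'
    · apply minors_of_prop _ _ (t ^ d ^ (b1 + e1) * c / t ^ d ^ b1)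
      rw [hyit, hyit]
      have hrel' : (pt (sw ω σ w))^[b1 + e1] x = c • (pt (sw ω σ w))^[b1] x := hrel
      rw [hrel', smul_smul, smul_smul]
      congr 1
      have : t ^ d ^ b1 ≠ 0 := pow_ne_zero _ ht0
      field_simp
  · rw [eval_mO hitr, hsy]
    exact hjk

theorem bddO_of_type (htype : S_type3) (hnorm : S_norm) (hc1 : S_c1)
    (hcnt : TaskCnt) (N d D : ℕ) (hd : 2 ≤ d) : ∃ C : ℕ,
    ∀ (O J : Type) [CommRing O] [IsDomain O] [Fintype J] (ω : Module.Basis J ℤ O)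
      (δ : Den (Idx (N + 1) d × J)), δ.HDens →
      δ.D0 {w : Idx (N + 1) d × J → ℤ | ¬ BddO D C (sy (cv ω fun q => (w q : O)))} := by
  obtain ⟨c₁, s, ⟨v₀, hv₀⟩, hMac⟩ := hc1 (N + 1) d (by omega)
  have hc₁ : c₁ ≠ 0 := by
    intro h
    rw [h, map_zero] at hv₀
    exact zero_ne_one hv₀
  obtain ⟨b, e, he, hbe⟩ := htype N d D hd
  obtain ⟨C, hC⟩ := hcnt N s b e he
  refine ⟨C, ?_⟩
  intro O J _ _ _ ω δ hdens
  obtain ⟨n₁, hn₁, hdiv₁⟩ := hnorm O J (Idx (N + 1) d) ω c₁ hc₁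
  have h1 := Den.D0.union (δ := δ) (S := {w : Idx (N + 1) d × J → ℤ | eval w n₁ = 0})
    (Den.D0.zero n₁ hn₁) (hbe O J ω δ hdens)
  intro ε hε
  apply δ.mono (h1 ε hε)
  intro w hw
  by_contra hnot
  simp only [Set.mem_union, not_or] at hnot
  obtain ⟨hw1, hw2⟩ := hnot
  have hw1' : eval w n₁ ≠ 0 := hw1
  have hw2' := not_not.1 hw2
  have hsy : ∀ (K : Type) [Field K] (σ : O →+* K),
      (fun i => map σ (sy (cv ω fun q => (w q : O)) i)) = sw ω σ w := by
    intro K _ σ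
    rw [map_sy, sw]
    congr 1
    funext i
    simp [cv]
  have hMon : ∀ (K : Type) [Field K] [CharZero K] (σ : O →+* K), MonIn s (sw ω σ w) := by
    intro K _ _ σ
    apply hMac
    have h1 := hdiv₁ K σ (fun q => (w q : K))
    rw [aeval_cast] at h1
    exact (ne_zero_of_dvd_ne_zero (Int.cast_ne_zero.2 hw1') h1).isUnit
  apply hw
  intro K _ _ σ
  refine ⟨?_, ?_⟩
  · intro x hx
    rw [hsy] at hx
    exact no_zero _ (hMon K σ) x fun i => congrFun hx i
  · intro hNF hK X hX0 hXp hX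
    haveI := hNF
    apply hC K d hd (sw ω σ w) (fun i => sy_hom _ i) (hMon K σ) X hX0 hXp
    intro x hx
    have h2 := hX x hx
    rw [hsy] at h2
    exact hw2' K σ hK x (hX0 x hx) h2

end Pool.Agent.N938.TD
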