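import Pool.Agent.N938.TD.Den
import Pool.Agent.W410.UB.Urel

/-!
# `ℚ(X_ι)` is relatively algebraically closed in the ultrapower, for abstract densities

Copy of `Pool.Agent.W410.UB.Urel.main` (starting files) with `UD` replaced by an abstract density.
-/

set_option autoImplicit false

namespace Pool.Agent.N938.TD.Den

open MvPolynomial
open Pool.Agent.W275.UB (EE gn)
open Pool.Agent.W410.UB.Urel (psi psi_apply eval₂_psi bezout)

variable {ι : Type} [Fintype ι] {δ : Den ι}

theorem ne_zero_ev {U : Ultrafilter (ι → ℤ)} (hU : δ.Gen U) {c : MvPolynomial ι ℤ}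
    (hc : c ≠ 0) : {v : ι → ℤ | eval v c = 0}ᶜ ∈ U := hU _ (D0.zero c hc)

theorem psi_inj {U : Ultrafilter (ι → ℤ)} (hU : δ.Gen U) : Function.Injective (psi U) := by
  rw [injective_iff_map_eq_zero]
  intro c hc
  by_contra hne
  have h1 := ne_zero_ev hU hne
  rw [psi_apply, ← Filter.Germ.coe_zero, Filter.Germ.coe_eq] at hc
  have h2 : {v : ι → ℤ | eval v c = 0} ∈ U := by
    filter_upwards [hc] with v hv
    have : ((eval v c : ℤ) : ℚ) = 0 := hv
    exact_mod_cast this
  have h3 := Filter.inter_mem h1 h2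
  rw [Set.compl_inter_self] at h3
  exact Filter.empty_notMem _ h3

theorem urel (U : Ultrafilter (ι → ℤ)) (hU : δ.Gen U) (T : (ι → ℤ) → ℚ)
    (G : Polynomial (MvPolynomial ι ℤ)) (hG : G ≠ 0)
    (hev : ∀ᶠ v in (U : Filter (ι → ℤ)),
      (G.map ((Int.castRingHom ℚ).comp (eval v))).eval (T v) = 0) :
    ∃ a b : MvPolynomial ι ℤ, b ≠ 0 ∧
      ∀ᶠ v in (U : Filter (ι → ℤ)), ((eval v b : ℤ) : ℚ) * T v = ((eval v a : ℤ) : ℚ) := by
  classical
  let : Algebra (MvPolynomial ι ℤ) ((U : Filter (ι → ℤ)).Germ ℚ) := (psi U).toAlgebra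
  have hinj : Function.Injective (algebraMap (MvPolynomial ι ℤ) ((U : Filter (ι → ℤ)).Germ ℚ)) :=
    psi_inj hU
  have : FaithfulSMul (MvPolynomial ι ℤ) ((U : Filter (ι → ℤ)).Germ ℚ) :=
    (faithfulSMul_iff_algebraMap_injective _ _).mpr hinj
  let := FractionRing.liftAlgebra (MvPolynomial ι ℤ) ((U : Filter (ι → ℤ)).Germ ℚ)
  have := FractionRing.isScalarTower_liftAlgebra (MvPolynomial ι ℤ)
    ((U : Filter (ι → ℤ)).Germ ℚ)
  set t : (U : Filter (ι → ℤ)).Germ ℚ := (T : (U : Filter (ι → ℤ)).Germ ℚ) with ht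
  have halg : IsAlgebraic (MvPolynomial ι ℤ) t := by
    refine ⟨G, hG, ?_⟩
    rw [Polynomial.aeval_def]
    refine (eval₂_psi U G T).trans ?_
    rw [← Filter.Germ.coe_zero, Filter.Germ.coe_eq]
    exact hev
  obtain ⟨b, hb, hint⟩ := halg.exists_integral_multiple
  set P := minpoly (MvPolynomial ι ℤ) (b • t) with hP
  have hmon : P.Monic := minpoly.monic hint
  have hPK : minpoly (EE ι) (b • t) = P.map (algebraMap (MvPolynomial ι ℤ) (EE ι)) :=
    minpoly.isIntegrallyClosed_eq_field_fractions' (EE ι) hint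
  have hintK : IsIntegral (EE ι) (b • t) := hint.tower_top
  have hirr : Irreducible (P.map (algebraMap (MvPolynomial ι ℤ) (EE ι))) := by
    rw [← hPK]
    exact minpoly.irreducible hintK
  -- the values
  have hbt : b • t = ((fun v => ((eval v b : ℤ) : ℚ) * T v : (ι → ℤ) → ℚ) :
      (U : Filter (ι → ℤ)).Germ ℚ) := by
    rw [Algebra.smul_def]
    rfl
  have hroot : ∀ᶠ v in (U : Filter (ι → ℤ)),
      (P.map ((Int.castRingHom ℚ).comp (eval v))).eval (((eval v b : ℤ) : ℚ) * T v) = 0 := by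
    have h1 : Polynomial.aeval (b • t) P = 0 := minpoly.aeval _ _
    rw [Polynomial.aeval_def, hbt] at h1
    have h2 := (eval₂_psi U P (fun v => ((eval v b : ℤ) : ℚ) * T v)).symm.trans h1
    rw [← Filter.Germ.coe_zero, Filter.Germ.coe_eq] at h2
    exact h2
  have hB : ∀ᶠ v in (U : Filter (ι → ℤ)), ∃ T' : ℤ, (P.map (eval v)).eval T' = 0 := by
    filter_upwards [hroot] with v hv
    have hm : (P.map (eval v)).Monic := hmon.map _
    have h1 : Polynomial.aeval (((eval v b : ℤ) : ℚ) * T v) (P.map (eval v)) = 0 := by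
      rw [Polynomial.aeval_def, Polynomial.eval₂_map]
      rw [Polynomial.eval_map] at hv
      exact hv
    obtain ⟨z, hz⟩ := isInteger_of_is_root_of_monic hm h1
    refine ⟨z, ?_⟩
    rw [← hz, Polynomial.aeval_algebraMap_apply, Polynomial.coe_aeval_eq_eval, eq_intCast] at h1
    exact_mod_cast h1
  -- the root over `ℚ[X]`
  obtain ⟨A, B, Δ, hΔ, hAB⟩ := bezout P hirr
  obtain ⟨S, hS⟩ : ∃ S : MvPolynomial ι ℚ,
      (P.map (MvPolynomial.map (Int.castRingHom ℚ))).eval S = 0 := by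
    by_contra hcon
    push Not at hcon
    have h1 := hU _ (δ.hit P A B Δ hmon hΔ hAB hcon)
    have h3 := Filter.inter_mem h1 hB
    rw [show ({v : ι → ℤ | ∃ T : ℤ, (P.map (eval v)).eval T = 0}ᶜ ∩
      {v : ι → ℤ | ∃ T' : ℤ, (P.map (eval v)).eval T' = 0}) = ∅ from Set.compl_inter_self _] at h3
    exact Filter.empty_notMem _ h3
  have : CharZero (EE ι) := IsFractionRing.charZero_of_isFractionRing (MvPolynomial ι ℤ)
  have hSK : ∃ x : EE ι, (P.map (algebraMap (MvPolynomial ι ℤ) (EE ι))).eval x = 0 := by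
    let θ : MvPolynomial ι ℚ →+* EE ι := eval₂Hom (algebraMap ℚ (EE ι))
      (fun i => algebraMap (MvPolynomial ι ℤ) (EE ι) (X i))
    refine ⟨θ S, ?_⟩
    have h1 : θ.comp (MvPolynomial.map (Int.castRingHom ℚ)) =
        algebraMap (MvPolynomial ι ℤ) (EE ι) := by
      apply MvPolynomial.ringHom_ext
      · intro r
        simp [θ]
      · intro i
        simp [θ]
    have h2 := congrArg θ hS
    rw [Polynomial.eval_map, Polynomial.hom_eval₂, h1, map_zero] at h2
    rw [Polynomial.eval_map]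
    exact h2
  obtain ⟨x, hx⟩ := hSK
  have hdeg : P.natDegree = 1 := by
    have h1 := Polynomial.degree_eq_one_of_irreducible_of_root hirr hx
    rw [hmon.degree_map] at h1
    exact Polynomial.natDegree_eq_of_degree_eq_some h1
  -- conclusion
  refine ⟨-P.coeff 0, b, hb, ?_⟩
  filter_upwards [hroot] with v hv
  have h1 : P = Polynomial.X + Polynomial.C (P.coeff 0) := hmon.eq_X_add_C hdeg
  rw [h1] at hv
  simp only [Polynomial.map_add, Polynomial.map_X, Polynomial.map_C, Polynomial.eval_add,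
    Polynomial.eval_X, Polynomial.eval_C, RingHom.comp_apply] at hv
  rw [map_neg, Int.cast_neg]
  have h2 : (Int.castRingHom ℚ) (eval v (P.coeff 0)) = ((eval v (P.coeff 0) : ℤ) : ℚ) := rfl
  rw [h2] at hv
  linarith

end Pool.Agent.N938.TD.Den
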