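import Pool.Agent.N938.TD.Gen
import Pool.Agent.Y706.B5

set_option autoImplicit false
set_option linter.unusedSectionVars false

/-!
# The field of rational functions over a number field in the ultrapower, for good ultrafilters

Copies of lemmas of `Pool.Agent.Y706` (starting files, Rac2, Rac3, Rac4) with the condition on the
ultrafilter (no sets of density zero in boxes) replaced by what is used: `Gd`.
-/

namespace Pool.Agent.N938.TD

/-- a good ultrafilter -/
structure Gd {ι : Type} (U : Ultrafilter (ι → ℤ)) : Prop where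
  ne : ∀ c : MvPolynomial ι ℤ, c ≠ 0 →
    ∀ᶠ v in (U : Filter (ι → ℤ)), MvPolynomial.eval v c ≠ 0
  rel : ∀ (T : (ι → ℤ) → ℚ) (G : Polynomial (MvPolynomial ι ℤ)), G ≠ 0 →
    (∀ᶠ v in (U : Filter (ι → ℤ)),
      (G.map ((Int.castRingHom ℚ).comp (MvPolynomial.eval v))).eval (T v) = 0) →
    ∃ a b : MvPolynomial ι ℤ, b ≠ 0 ∧ ∀ᶠ v in (U : Filter (ι → ℤ)),
      ((MvPolynomial.eval v b : ℤ) : ℚ) * T v = ((MvPolynomial.eval v a : ℤ) : ℚ)

theorem Den.gd {ι : Type} [Fintype ι] {δ : Den ι} {U : Ultrafilter (ι → ℤ)} (hU : δ.Gen U) : Gd U :=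
  ⟨fun _ hc => Den.ne_zero_ev hU hc, fun T G hG hev => Den.urel U hU T G hG hev⟩

end Pool.Agent.N938.TD

namespace Pool.Agent.N938.TD.Y

open MvPolynomial IntermediateField
open Pool.Agent.Y706 hiding evk_inj gen_ne_zero faithful isAlg_sum isAlg_trace rac_w algF mem_algF Wk_alg
  algF_trans indep_W indep_V rac rho_inj psiF psiF_algebraMap mem_range psiF_mem psiF_closed
  generic_ptsB

section

variable {ι : Type} {U : Ultrafilter (ι → ℤ)} {k : Type} [Field k]

lemma evk_inj [CharZero k] (hU : Gd U) :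
    Function.Injective (evk U k) := by
  rw [injective_iff_map_eq_zero]
  intro c hc
  by_contra hne
  have h1 := hU.ne c hne
  rw [evk_def, up_eq_zero] at hc
  obtain ⟨v, hv1, hv2⟩ := (hc.and h1).exists
  exact hv2 (by exact_mod_cast hv1)

end

section

variable {ι : Type} [Fintype ι] {U : Ultrafilter (ι → ℤ)}

lemma faithful {k : Type} [Field k] [CharZero k] (hU : Gd U) :
    FaithfulSMul (MvPolynomial ι ℤ) (UP U k) :=
  (faithfulSMul_iff_algebraMap_injective _ _).mpr (evk_inj hU)

lemma isAlg_sum (hU : Gd U) {k : Type} [Field k] [CharZero k] {τ : Type*}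
    (s : Finset τ) (f : τ → UP U k) (h : ∀ t ∈ s, IsAlgebraic (MvPolynomial ι ℤ) (f t)) :
    IsAlgebraic (MvPolynomial ι ℤ) (∑ t ∈ s, f t) := by
  have := faithful (k := k) hU
  exact (Subalgebra.algebraicClosure (MvPolynomial ι ℤ) (UP U k)).sum_mem h

lemma isAlg_trace (hU : Gd U) {k : Type} [Field k] [NumberField k]
    (x : (ι → ℤ) → k) (hx : IsAlgebraic (MvPolynomial ι ℤ) (up U k x)) (c : k) :
    IsAlgebraic (MvPolynomial ι ℤ) (up U ℚ fun w => Algebra.trace ℚ k (x w * c)) := by
  have := faithful (k := k) hU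
  apply isAlg_of_upMap (algebraMap ℚ ℂ)
  have h1 : upMap U (algebraMap ℚ ℂ) (up U ℚ fun w => Algebra.trace ℚ k (x w * c)) =
      ∑ σ : k →ₐ[ℚ] ℂ, upMap U (σ : k →+* ℂ) (up U k x * up U k fun _ => c) := by
    rw [upMap_up]
    have h2 : ∀ σ : k →ₐ[ℚ] ℂ, upMap U (σ : k →+* ℂ) (up U k x * up U k fun _ => c) =
        up U ℂ fun w => σ (x w * c) := by
      intro σ
      rw [← map_mul, upMap_up]
      rfl
    rw [Finset.sum_congr rfl fun σ _ => h2 σ, ← map_sum]
    congr 1
    funext w
    rw [Finset.sum_apply, trace_eq_sum_embeddings ℂ]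
  rw [h1]
  apply isAlg_sum hU
  intro σ _
  apply isAlg_upMap
  exact hx.mul (isAlg_const c)

/-- `k(w)` is relatively algebraically closed -/
theorem rac_w (hU : Gd U) {k : Type} [Field k] [NumberField k]
    (x : UP U k) (hx : IsAlgebraic (MvPolynomial ι ℤ) x) :
    x ∈ adjoin k (Set.range (Wk U k)) := by
  classical
  obtain ⟨x, rfl⟩ := up_surj x
  let b := Module.finBasis ℚ k
  have hx1 : ∀ w, x w = ∑ j, algebraMap ℚ k (Algebra.trace ℚ k (x w * b j)) * b.traceDual j := by
    intro w
    conv_lhs => rw [← b.traceDual.sum_repr (x w)]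
    refine Finset.sum_congr rfl fun j _ => ?_
    rw [Module.Basis.traceDual_repr_apply, Algebra.traceForm_apply, Algebra.smul_def]
  have hx2 : up U k x = ∑ j, upMap U (algebraMap ℚ k)
      (up U ℚ fun w => Algebra.trace ℚ k (x w * b j)) * algebraMap k (UP U k) (b.traceDual j) := by
    have h3 : ∀ j, upMap U (algebraMap ℚ k)
        (up U ℚ fun w => Algebra.trace ℚ k (x w * b j)) *
        algebraMap k (UP U k) (b.traceDual j) = up U k fun w =>
        algebraMap ℚ k (Algebra.trace ℚ k (x w * b j)) * b.traceDual j := by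
      intro j
      rw [upMap_up, algebraMap_up, ← map_mul]
      rfl
    rw [Finset.sum_congr rfl fun j _ => h3 j, ← map_sum]
    congr 1
    funext w
    rw [Finset.sum_apply]
    exact hx1 w
  rw [hx2]
  refine sum_mem fun j _ => mul_mem ?_ (_root_.algebraMap_mem _ _)
  obtain ⟨G, hG, hG2⟩ := isAlg_trace hU x hx (b j)
  set T : (ι → ℤ) → ℚ := fun w => Algebra.trace ℚ k (x w * b j) with hT
  have hev : ∀ᶠ v in (U : Filter (ι → ℤ)),
      (G.map ((Int.castRingHom ℚ).comp (eval v))).eval (T v) = 0 := by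
    rw [← up_eq_zero (k := ℚ), ← hG2, Polynomial.aeval_def]
    have h4 : algebraMap (MvPolynomial ι ℤ) (UP U ℚ) = (up U ℚ).comp
        (RingHom.pi fun v => (Int.castRingHom ℚ).comp (eval v)) := rfl
    rw [h4, ← Polynomial.hom_eval₂]
    congr 1
    funext v
    have h5 := Polynomial.hom_eval₂ G
      (RingHom.pi fun v : ι → ℤ => (Int.castRingHom ℚ).comp (eval v))
      (Pi.evalRingHom (fun _ : ι → ℤ => ℚ) v) T
    rw [Pi.evalRingHom_apply, Pi.evalRingHom_apply] at h5
    rw [h5, Polynomial.eval_map]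
    rfl
  obtain ⟨a, c, hc, hac⟩ := hU.rel T G hG hev
  have h6 : evk U k c * upMap U (algebraMap ℚ k) (up U ℚ T) = evk U k a := by
    rw [← upMap_evk (algebraMap ℚ k) c, ← upMap_evk (algebraMap ℚ k) a, ← map_mul]
    congr 1
    rw [evk_def, evk_def, ← map_mul, up_eq]
    exact hac
  have h7 : evk U k c ≠ 0 := fun h => hc (evk_inj hU (h.trans (map_zero _).symm))
  have h8 : upMap U (algebraMap ℚ k) (up U ℚ T) = evk U k a / evk U k c := by
    rw [← h6, mul_comm, mul_div_cancel_right₀ _ h7]
  rw [h8]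
  exact div_mem (evk_mem a) (evk_mem c)

end

section

variable {ι : Type} [Fintype ι] {U : Ultrafilter (ι → ℤ)}

/-- the elements algebraic over the coordinates -/
def algF (hU : Gd U) (k : Type) [Field k] [NumberField k] :
    IntermediateField k (UP U k) where
  carrier := {x | IsAlgebraic (MvPolynomial ι ℤ) x}
  mul_mem' := by
    have := faithful (k := k) hU
    intro a b ha hb
    exact IsAlgebraic.mul ha hb
  add_mem' := by
    have := faithful (k := k) hU
    intro a b ha hb
    exact IsAlgebraic.add ha hb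
  algebraMap_mem' := fun c => isAlg_const c
  inv_mem' := by
    have := faithful (k := k) hU
    intro a ha
    exact IsAlgebraic.inv ha

lemma mem_algF (hU : Gd U) {k : Type} [Field k] [NumberField k] (x : UP U k) :
    x ∈ algF hU k ↔ IsAlgebraic (MvPolynomial ι ℤ) x := Iff.rfl

lemma Wk_alg (hU : Gd U) {k : Type} [Field k] [NumberField k] (q : ι) :
    Wk U k q ∈ algF hU k := by
  have := faithful (k := k) hU
  rw [mem_algF, ← evk_X]
  exact isAlgebraic_algebraMap _

/-- an element algebraic over a subfield of `algF` belongs to `algF` -/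
lemma algF_trans (hU : Gd U) {k : Type} [Field k] [NumberField k]
    (F : IntermediateField k (UP U k)) (hF : F ≤ algF hU k) (x : UP U k)
    (hx : IsAlgebraic F x) : IsAlgebraic (MvPolynomial ι ℤ) x := by
  have := faithful (k := k) hU
  let S := Subalgebra.algebraicClosure (MvPolynomial ι ℤ) (UP U k)
  obtain ⟨p, hp, hpx⟩ := hx
  let g : F →+* S :=
    { toFun := fun y => ⟨y.1, hF y.2⟩
      map_one' := rfl
      map_mul' := fun _ _ => rfl
      map_zero' := rfl
      map_add' := fun _ _ => rfl }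
  have hg : (algebraMap S (UP U k)).comp g = algebraMap F (UP U k) := rfl
  have h1 : IsAlgebraic S x := by
    refine ⟨p.map g, ?_, ?_⟩
    · rw [Ne, Polynomial.map_eq_zero_iff g.injective]
      exact hp
    · rw [Polynomial.aeval_def, Polynomial.eval₂_map, hg, ← Polynomial.aeval_def]
      exact hpx
  exact h1.restrictScalars (MvPolynomial ι ℤ)

lemma indep_W (hU : Gd U) {k : Type} [Field k] [NumberField k] :
    AlgebraicIndependent k (Wk U k) := by
  have h1 : AlgebraicIndependent ℤ (Wk U k) := by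
    intro P Q hPQ
    apply evk_inj (k := k) hU
    rw [evk_eq_aeval, evk_eq_aeval]
    exact hPQ
  have : Algebra.IsAlgebraic ℤ k := by
    constructor
    intro c
    have h2 : IsAlgebraic ℚ c := Algebra.IsAlgebraic.isAlgebraic c
    exact (IsFractionRing.isAlgebraic_iff ℤ ℚ k).2 h2
  exact h1.extendScalars k

end

section lin

variable {ι J : Type} [Fintype ι] [Fintype J] {k : Type} [Field k] [NumberField k]

variable {U : Ultrafilter (ι × J → ℤ)}

lemma indep_V (hU : Gd U) (z : J → k) (j0 : J) (hz : z j0 ≠ 0) :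
    AlgebraicIndependent k (Sum.elim (fun q : {q : ι × J // q.2 ≠ j0} => Wk U k q.1)
      (Vk U z)) := by
  have h1 : aeval (Sum.elim (fun q : {q : ι × J // q.2 ≠ j0} => Wk U k q.1) (Vk U z)) =
      (aeval (Wk U k)).comp (phi z j0) := by
    apply MvPolynomial.algHom_ext
    rintro (q | i)
    · rw [AlgHom.comp_apply, phi, aeval_X, Sum.elim_inl, aeval_X, Sum.elim_inl, aeval_X]
    · rw [AlgHom.comp_apply, phi, aeval_X, Sum.elim_inr, aeval_X, Sum.elim_inr, map_sum, Vk_eq]
      refine Finset.sum_congr rfl fun j _ => ?_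
      rw [map_mul, aeval_X, aeval_C]
  intro P Q hPQ
  have h2 : aeval (Wk U k) (phi z j0 P) = aeval (Wk U k) (phi z j0 Q) := by
    have h3 := hPQ
    rw [h1] at h3
    exact h3
  exact phi_inj z j0 hz (indep_W hU h2)

/-- **`k(v)` is relatively algebraically closed in the ultrapower.** -/
theorem rac (hU : Gd U) (z : J → k) (j0 : J) (hz : z j0 ≠ 0)
    (x : UP U k) (hx : IsAlgebraic (adjoin k (Set.range (Vk U z))) x) :
    x ∈ adjoin k (Set.range (Vk U z)) := by
  classical
  set F := adjoin k (Set.range (Vk U z)) with hF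
  have hFW : F ≤ adjoin k (Set.range (Wk U k)) := by
    rw [hF, adjoin_le_iff]
    rintro _ ⟨i, rfl⟩
    rw [Vk_eq]
    exact sum_mem fun j _ => mul_mem (_root_.algebraMap_mem _ _) (subset_adjoin _ _ ⟨_, rfl⟩)
  have hWA : adjoin k (Set.range (Wk U k)) ≤ algF hU k := by
    rw [adjoin_le_iff]
    rintro _ ⟨i, rfl⟩
    exact Wk_alg hU i
  have h1 : x ∈ adjoin k (Set.range (Wk U k)) :=
    rac_w hU x (algF_trans hU F (hFW.trans hWA) x hx)
  have h2 := indep_V hU z j0 hz
  rw [AlgebraicIndependent.sumElim_iff] at h2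
  have h3 : AlgebraicIndependent F (fun q : {q : ι × J // q.2 ≠ j0} => Wk U k q.1) :=
    algebraicIndependent_adjoin_iff.2 h2.2
  have h4 : x ∈ adjoin F ((fun q : {q : ι × J // q.2 ≠ j0} => Wk U k q.1) ''
      ((Finset.univ : Finset {q : ι × J // q.2 ≠ j0}) : Set _)) := by
    set G := adjoin F ((fun q : {q : ι × J // q.2 ≠ j0} => Wk U k q.1) ''
      ((Finset.univ : Finset {q : ι × J // q.2 ≠ j0}) : Set _)) with hG
    have h5 : adjoin k (Set.range (Wk U k)) ≤ G.restrictScalars k := by
      rw [adjoin_le_iff]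
      rintro _ ⟨q, rfl⟩
      show Wk U k q ∈ G
      have h6 : ∀ q : ι × J, q.2 ≠ j0 → Wk U k q ∈ G := by
        intro q hq
        rw [hG]
        exact subset_adjoin _ _ ⟨⟨q, hq⟩, by simp, rfl⟩
      by_cases hq : q.2 = j0
      · have h7 := Vk_eq (U := U) z q.1
        rw [← Finset.add_sum_erase _ _ (Finset.mem_univ j0)] at h7
        have h8 : Wk U k q = algebraMap k (UP U k) (z j0)⁻¹ * (Vk U z q.1 -
            ∑ j ∈ Finset.univ.erase j0, algebraMap k (UP U k) (z j) * Wk U k (q.1, j)) := by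
          have h9 : q = (q.1, j0) := by
            rw [← hq]
          rw [h7, add_sub_cancel_right, ← mul_assoc, ← map_mul, inv_mul_cancel₀ hz, map_one,
            one_mul, ← h9]
        rw [h8]
        have hk : ∀ c : k, algebraMap k (UP U k) c ∈ G := fun c => by
          rw [IsScalarTower.algebraMap_apply k F (UP U k)]
          exact _root_.algebraMap_mem G _
        refine mul_mem (hk _) (sub_mem ?_ (sum_mem fun j hj => mul_mem (hk _) ?_))
        · have : Vk U z q.1 ∈ F := subset_adjoin _ _ ⟨_, rfl⟩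
          exact _root_.algebraMap_mem G (⟨_, this⟩ : F)
        · exact h6 _ (Finset.ne_of_mem_erase hj)
      · exact h6 q hq
    exact h5 h1
  obtain ⟨c, hc⟩ := mem_of_alg_adjoin h3 _ x h4 hx
  rw [← hc]
  exact c.2

end lin

end Pool.Agent.N938.TD.Y
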